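import Pool.Agent.AsympTrans.PathCut

/-! Package AT4: a path to a good end gives an augmentation. -/

set_option autoImplicit false

namespace Pool.Agent.AsympTrans

open Finset

variable {ε V₁ V₂ Γ : Type*} [DecidableEq ε] [DecidableEq V₁] [DecidableEq V₂] [DecidableEq Γ]
  {x : ε → V₁} {y : ε → V₂} {c : ε → Γ} {E M : Finset ε} {T : Finset V₁}

theorem Rainbow.insert_new {N : Finset ε} (hN : Rainbow x y c E N) {e : ε} (he : e ∈ E)
    (hx : x e ∉ N.image x) (hy : y e ∉ N.image y) (hc : c e ∉ N.image c) :
    Rainbow x y c E (insert e N) := by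
  have heN : e ∉ N := fun h => hx (mem_image_of_mem x h)
  refine ⟨insert_subset he hN.1, ?_, ?_, ?_⟩
  · rw [coe_insert, Set.injOn_insert (by simpa using heN)]
    exact ⟨hN.2.1, by simpa using hx⟩
  · rw [coe_insert, Set.injOn_insert (by simpa using heN)]
    exact ⟨hN.2.2.1, by simpa using hy⟩
  · rw [coe_insert, Set.injOn_insert (by simpa using heN)]
    exact ⟨hN.2.2.2, by simpa using hc⟩

theorem Rainbow.subset {N N' : Finset ε} (hN : Rainbow x y c E N) (h : N' ⊆ N) :
    Rainbow x y c E N' :=
  ⟨h.trans hN.1, hN.2.1.mono (by exact_mod_cast h), hN.2.2.1.mono (by exact_mod_cast h),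
    hN.2.2.2.mono (by exact_mod_cast h)⟩

theorem image_erase_of_injOn {α β : Type*} [DecidableEq α] [DecidableEq β] {g : α → β}
    {N : Finset α} (hg : Set.InjOn g (N : Set α)) {f : α} (hf : f ∈ N) :
    (N.erase f).image g = N.image g \ {g f} := by
  ext v
  simp only [mem_image, mem_erase, mem_sdiff, mem_singleton]
  constructor
  · rintro ⟨a, ⟨haf, haN⟩, rfl⟩
    exact ⟨⟨a, haN, rfl⟩, fun h => haf (hg (mem_coe.2 haN) (mem_coe.2 hf) h)⟩
  · rintro ⟨⟨a, haN, rfl⟩, hne⟩
    exact ⟨a, ⟨fun h => hne (by rw [h]), haN⟩, rfl⟩

/-- exchange the edge `f` for the edge `e` with the same right end -/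
theorem Rainbow.exchange {N : Finset ε} (hN : Rainbow x y c E N) {e f : ε} (he : e ∈ E)
    (hf : f ∈ N) (hfe : y f = y e) (hx : x e ∉ N.image x) (hc : c e ∉ N.image c) :
    Rainbow x y c E (insert e (N.erase f)) ∧
      (insert e (N.erase f)).image y = N.image y ∧
      (insert e (N.erase f)).image x = insert (x e) (N.image x \ {x f}) ∧
      (insert e (N.erase f)).image c ⊆ insert (c e) (N.image c) := by
  have hx' : (N.erase f).image x = N.image x \ {x f} := image_erase_of_injOn hN.2.1 hf
  have hy' : (N.erase f).image y = N.image y \ {y f} := image_erase_of_injOn hN.2.2.1 hf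
  refine ⟨?_, ?_, ?_, ?_⟩
  · refine (hN.subset (erase_subset f N)).insert_new he ?_ ?_ ?_
    · exact fun h => hx (image_subset_image (erase_subset f N) h)
    · rw [hy', hfe]
      simp
    · exact fun h => hc (image_subset_image (erase_subset f N) h)
  · rw [image_insert, hy', ← hfe, insert_sdiff_self_of_mem (mem_image_of_mem y hf)]
  · rw [image_insert, hx']
  · rw [image_insert]
    exact insert_subset_insert _ (image_subset_image (erase_subset f N))

/-- switching along a path that does not reach a good end yet: the source becomes covered, the end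
`v` uncovered, nothing changes outside `A`, the right vertices stay the same -/
theorem Path.switch (hM : Rainbow x y c E M) {L : Finset Γ} (hL : Disjoint L (M.image c))
    {A : Finset V₁} {v : V₁} (h : Path x y c E M T L A v) :
    ∃ M', Rainbow x y c E M' ∧ M'.image c ⊆ M.image c ∪ L ∧ M'.image y = M.image y ∧
      v ∉ M'.image x ∧ (∃ u ∈ T \ M.image x, M'.image x = insert u (M.image x \ {v}) ∨
        (u = v ∧ M'.image x = M.image x)) ∧
      (∀ f ∈ M, x f ∉ A → f ∈ M') ∧ (T \ M'.image x).card = (T \ M.image x).card := by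
  induction h with
  | src L v hT hMv =>
    exact ⟨M, hM, subset_union_left, rfl, hMv, ⟨v, mem_sdiff.2 ⟨hT, hMv⟩, Or.inr ⟨rfl, rfl⟩⟩,
      fun f hf _ => hf, rfl⟩
  | step L A e f he hc hf hy hT hA h ih =>
    obtain ⟨M', hM', hcol, hyM, hvx, ⟨u, hu, hux⟩, hout, hcard⟩ :=
      ih (disjoint_of_subset_left (erase_subset _ _) hL)
    have hf' : f ∈ M' := hout f hf hA
    have hce : c e ∉ M'.image c := by
      intro hcon
      rcases mem_union.1 (hcol hcon) with h1 | h1
      · exact (disjoint_left.1 hL hc) h1
      · exact (notMem_erase _ _) h1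
    obtain ⟨hN, hNy, hNx, hNc⟩ := hM'.exchange he hf' hy hvx hce
    have hef : x f ≠ x e := fun hcon => hvx (hcon ▸ mem_image_of_mem x hf')
    have hxfM : x f ∈ M.image x := mem_image_of_mem x hf
    have hufM := (mem_sdiff.1 hu).2
    have huf : u ≠ x f := fun hcon => hufM (hcon ▸ hxfM)
    have hxeT : x e ∈ T := h.mem.2 h.mem.1
    refine ⟨insert e (M'.erase f), hN, ?_, hNy.trans hyM, ?_, ?_, ?_, ?_⟩
    · refine hNc.trans ?_
      apply insert_subset (mem_union_right _ hc)
      exact hcol.trans (union_subset_union_right (erase_subset _ _))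
    · rw [hNx]
      simp [hef]
    · rcases hux with hux | ⟨hue, hux⟩
      · by_cases hxe : x e ∈ M.image x
        · refine ⟨u, hu, Or.inl ?_⟩
          rw [hNx, hux]
          ext v
          simp only [mem_insert, mem_sdiff, mem_singleton]
          constructor
          · rintro (h1 | ⟨h1 | h1, h2⟩)
            · subst h1
              exact Or.inr ⟨hxe, fun h3 => hef h3.symm⟩
            · exact Or.inl h1
            · exact Or.inr ⟨h1.1, h2⟩
          · rintro (h1 | ⟨h1, h2⟩)
            · subst h1
              exact Or.inr ⟨Or.inl rfl, huf⟩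
            · by_cases h3 : v = x e
              · exact Or.inl h3
              · exact Or.inr ⟨Or.inr ⟨h1, h3⟩, h2⟩
        · exfalso
          have h1 : (M'.image x).card = (M.image x).card := by
            rw [card_image_of_injOn hM'.2.1, card_image_of_injOn hM.2.1,
              ← card_image_of_injOn hM'.2.2.1, ← card_image_of_injOn hM.2.2.1, hyM]
          rw [hux, sdiff_singleton_eq_erase, erase_eq_of_notMem hxe,
            card_insert_of_notMem hufM] at h1
          omega
      · refine ⟨u, hu, Or.inl ?_⟩
        rw [hNx, hux, hue]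
    · intro g hg hgA
      rw [mem_insert, not_or] at hgA
      refine mem_insert_of_mem (mem_erase.2 ⟨fun hcon => hgA.1 (by rw [hcon]), hout g hg hgA.2⟩)
    · have hxfM' : x f ∈ M'.image x := mem_image_of_mem x hf'
      have h1 : T \ (insert e (M'.erase f)).image x = insert (x f) ((T \ M'.image x).erase (x e)) := by
        rw [hNx]
        ext v
        simp only [mem_insert, mem_sdiff, mem_singleton, mem_erase]
        constructor
        · rintro ⟨h1, h2⟩
          push Not at h2
          by_cases h3 : v = x f
          · exact Or.inl h3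
          · exact Or.inr ⟨h2.1, h1, fun h4 => h3 (h2.2 h4)⟩
        · rintro (h1 | ⟨h1, h2, h3⟩)
          · subst h1
            exact ⟨hT, by
              rintro (h2 | h2)
              · exact hef h2
              · exact h2.2 rfl⟩
          · exact ⟨h2, by
              rintro (h4 | h4)
              · exact h1 h4
              · exact h3 h4.1⟩
      rw [h1, card_insert_of_notMem, card_erase_of_mem, hcard]
      · have : 0 < (T \ M.image x).card := card_pos.2 ⟨u, hu⟩
        omega
      · exact mem_sdiff.2 ⟨hxeT, hvx⟩
      · intro hcon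
        exact (mem_sdiff.1 (mem_erase.1 hcon).2).2 hxfM'

theorem aug_of_succeeds (hM : Rainbow x y c E M) {L : Finset Γ} (hL : Disjoint L (M.image c))
    (h : Succeeds x y c E M T L) : Aug x y c E T M L := by
  obtain ⟨e, he, hc, ⟨A, hA⟩, hend⟩ := h
  obtain ⟨M', hM', hcol, hyM, hvx, -, hout, hcard⟩ :=
    hA.switch hM (disjoint_of_subset_left (erase_subset _ _) hL)
  have hce : c e ∉ M'.image c := by
    intro hcon
    rcases mem_union.1 (hcol hcon) with h1 | h1
    · exact (disjoint_left.1 hL hc) h1
    · exact (notMem_erase _ _) h1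
  have hxeT : x e ∈ T := hA.mem.2 hA.mem.1
  have hxe : x e ∈ T \ M'.image x := mem_sdiff.2 ⟨hxeT, hvx⟩
  rcases hend with hend | ⟨f, hf, hfe, hfT⟩
  · refine ⟨insert e M', hM'.insert_new he hvx ?_ hce, ?_, ?_, ?_⟩
    · rw [hyM]
      intro hcon
      obtain ⟨f, hf, hfe⟩ := mem_image.1 hcon
      exact hend f hf hfe
    · rw [image_insert]
      apply insert_subset (mem_union_right _ hc)
      exact hcol.trans (union_subset_union_right (erase_subset _ _))
    · rw [← hcard]
      apply card_lt_card
      rw [ssubset_iff_of_subset]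
      · exact ⟨x e, hxe, fun hcon => (mem_sdiff.1 hcon).2 (mem_image_of_mem x (mem_insert_self _ _))⟩
      · exact sdiff_subset_sdiff subset_rfl (image_subset_image (subset_insert _ _))
    · rw [← hyM]
      exact image_subset_image (subset_insert _ _)
  · have hf' : f ∈ M' := hout f hf (fun hcon => hfT (hA.mem.2 hcon))
    obtain ⟨hN, hNy, hNx, hNc⟩ := hM'.exchange he hf' hfe hvx hce
    refine ⟨insert e (M'.erase f), hN, ?_, ?_, ?_⟩
    · refine hNc.trans ?_
      apply insert_subset (mem_union_right _ hc)
      exact hcol.trans (union_subset_union_right (erase_subset _ _))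
    · rw [← hcard]
      apply card_lt_card
      rw [ssubset_iff_of_subset]
      · exact ⟨x e, hxe, fun hcon => (mem_sdiff.1 hcon).2 (mem_image_of_mem x (mem_insert_self _ _))⟩
      · intro v hv
        rw [hNx] at hv
        simp only [mem_sdiff, mem_insert, mem_singleton, not_or, not_and, not_not] at hv
        refine mem_sdiff.2 ⟨hv.1, fun hcon => ?_⟩
        have := hv.2.2 hcon
        exact hfT (this ▸ hv.1)
    · rw [hNy, hyM]

end Pool.Agent.AsympTrans
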