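import Pool.Agent.AsympTrans.Defs
import Pool.Agent.LN61.Cut

/-! Package AT9: the cut lemma. -/

set_option autoImplicit false

namespace Pool.Agent.AsympTrans

open Finset

variable {ε V₁ V₂ Γ : Type*} [DecidableEq ε] [DecidableEq V₁] [DecidableEq V₂] [DecidableEq Γ]

/-- The cut lemma: if the set `P` of colours is thin then the edges with colours outside `P`
satisfy the cut condition. -/
theorem cutCond_of_thin (x : ε → V₁) (y : ε → V₂) (c : ε → Γ) (E : Finset ε) (phi : ℝ)
    (hphi : 0 < phi) (hphi1 : phi ≤ 1) (k : ℕ) (KK : Finset (Finset ε))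
    (hKK : IsDecomp x y E phi k KK) (T : Finset V₁) (n : ℕ) (hT : T.card ≤ n) (D : ℝ)
    (hD : 0 ≤ D)
    (hdegT : ∀ v ∈ T, ((E.filter (fun e => x e = v)).card : ℝ) = D)
    (hdegy : ∀ w, ((E.filter (fun e => y e = w)).card : ℝ) ≤ D)
    (eps th : ℝ) (heps : 0 < eps) (hth : 0 ≤ th) (heps1 : 20 * eps ≤ phi)
    (hth1 : 8 * (k + 1) * n * th ≤ D) (P : Finset Γ) (hthin : Thin x y c KK T eps th P) :
    CutCond x y c E T D P := by
  classical
  intro X hXT Q hQX
  have hXne : X.Nonempty := Finset.card_pos.1 (by omega)
  obtain ⟨v₀, hv₀⟩ := hXne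
  obtain ⟨D', hD'⟩ : ∃ D' : ℕ, D = D' := ⟨_, (hdegT v₀ (hXT hv₀)).symm⟩
  have hcover : E = KK.biUnion id := by
    ext e
    rw [Finset.mem_biUnion]
    constructor
    · intro he
      obtain ⟨K, hK, hh⟩ := hKK.cover e he
      exact ⟨K, hK, hh⟩
    · rintro ⟨K, hK, hh⟩
      exact hKK.sub K hK hh
  have hexp : ∀ K ∈ KK, phi * min (((K.filter (fun e => x e ∈ X)).card : ℝ)
          + (K.filter (fun e => y e ∈ Q)).card)
        (((K.filter (fun e => x e ∉ X)).card : ℝ) + (K.filter (fun e => y e ∉ Q)).card)
      ≤ ((K.filter (fun e => x e ∈ X ∧ y e ∉ Q)).card : ℝ)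
        + (K.filter (fun e => x e ∉ X ∧ y e ∈ Q)).card := by
    intro K hK
    have h1 := hKK.exp K hK X Q
    have e1 : (vol x y K X Q : ℝ) = ((K.filter (fun e => x e ∈ X)).card : ℝ)
          + (K.filter (fun e => y e ∈ Q)).card := by
      unfold vol
      push_cast
      rfl
    have e2 : 2 * (K.card : ℝ) - (vol x y K X Q : ℝ)
        = ((K.filter (fun e => x e ∉ X)).card : ℝ) + (K.filter (fun e => y e ∉ Q)).card := by
      have g1 := Finset.card_filter_add_card_filter_not (s := K) (fun e => x e ∈ X)
      have g2 := Finset.card_filter_add_card_filter_not (s := K) (fun e => y e ∈ Q)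
      rw [e1]
      have g1' : ((K.filter (fun e => x e ∈ X)).card : ℝ) + (K.filter (fun e => x e ∉ X)).card
          = K.card := by exact_mod_cast g1
      have g2' : ((K.filter (fun e => y e ∈ Q)).card : ℝ) + (K.filter (fun e => y e ∉ Q)).card
          = K.card := by exact_mod_cast g2
      linarith
    have e3 : (bd x y K X Q : ℝ) = ((K.filter (fun e => x e ∈ X ∧ y e ∉ Q)).card : ℝ)
        + (K.filter (fun e => x e ∉ X ∧ y e ∈ Q)).card := by
      have : bd x y K X Q = (K.filter (fun e => x e ∈ X ∧ y e ∉ Q)).card
          + (K.filter (fun e => x e ∉ X ∧ y e ∈ Q)).card := by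
        unfold bd
        rw [← Finset.card_union_of_disjoint]
        · congr 1
          ext e
          simp only [Finset.mem_filter, Finset.mem_union]
          tauto
        · rw [Finset.disjoint_left]
          intro e he he'
          simp only [Finset.mem_filter] at he he'
          exact he'.2.1 he.2.1
      rw [this]
      push_cast
      rfl
    rw [e2, e1, e3] at h1
    exact h1
  have hmain := LN61.cut_lemma x y c E KK (by rw [hcover]; ext e; simp only [Finset.mem_biUnion]) hKK.disj X Q P (φ := phi) (ε := eps) (θ := th)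
    D' (k + 1) n hphi hphi1 heps.le heps1 hth
    (by
      rw [← hD']
      push_cast
      linarith)
    (by
      intro K hK
      convert hexp K hK)
    (by
      intro K hK v hv
      have h := hthin.left K hK v (hXT hv)
      unfold LN61.dg
      convert h)
    (by
      intro K hK w
      have h := hthin.right K hK w
      unfold LN61.dg
      convert h)
    (by
      intro K hK v hv
      have h := hthin.low K hK v (hXT hv)
      unfold Low at h
      unfold LN61.dg
      convert h)
    (by
      intro v _
      refine le_trans (Finset.card_le_card ?_) (hKK.left v)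
      intro K hK
      simp only [Finset.mem_filter] at hK ⊢
      refine ⟨hK.1, ?_⟩
      obtain ⟨e, he, hev⟩ := hK.2
      exact Finset.mem_image.2 ⟨e, he, hev⟩)
    (by
      intro v _
      refine le_trans (Finset.card_le_card ?_) (hKK.right v)
      intro K hK
      simp only [Finset.mem_filter] at hK ⊢
      refine ⟨hK.1, ?_⟩
      obtain ⟨e, he, hev⟩ := hK.2
      exact Finset.mem_image.2 ⟨e, he, hev⟩)
    (by
      intro v hv
      have h := hdegT v (hXT hv)
      rw [hD'] at h
      unfold LN61.dg
      have h2 : (E.filter (fun e => x e = v)).card = D' := by exact_mod_cast h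
      convert h2)
    (by
      intro w _
      have h := hdegy w
      rw [hD'] at h
      unfold LN61.dg
      have h2 : (E.filter (fun e => y e = w)).card ≤ D' := by exact_mod_cast h
      convert h2)
    hQX ((Finset.card_le_card hXT).trans hT)
  rw [hD']
  calc (D' : ℝ) / 2 * ((X.card : ℝ) - (Q.card : ℝ))
      = (D' : ℝ) * ((X.card : ℝ) - Q.card) / 2 := by ring
    _ ≤ _ := hmain
    _ = _ := by
      congr 2
      ext e
      simp only [Finset.mem_filter]
      tauto

end Pool.Agent.AsympTrans
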