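import Pool.Agent.AsympTrans.Defs
import Pool.Agent.LN61.Expander

/-! Package AT8: the expander decomposition. -/

set_option autoImplicit false

namespace Pool.Agent.AsympTrans

open Finset

variable {ε V₁ V₂ : Type*} [DecidableEq ε] [DecidableEq V₁] [DecidableEq V₂]

theorem isExp_of_isExpander (x : ε → V₁) (y : ε → V₂) (phi : ℝ) (K : Finset ε)
    (h : LN61.IsExpander (fun e => (Sum.inl (x e) : V₁ ⊕ V₂)) (fun e => Sum.inr (y e)) phi K) :
    IsExp x y phi K := by
  classical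
  intro X₁ X₂
  set X : Set (V₁ ⊕ V₂) := {v | (∃ a ∈ X₁, v = Sum.inl a) ∨ (∃ b ∈ X₂, v = Sum.inr b)} with hX
  have hl : ∀ a : V₁, (Sum.inl a : V₁ ⊕ V₂) ∈ X ↔ a ∈ X₁ := by
    intro a
    show (_ ∨ _) ↔ _
    constructor
    · rintro (⟨b, hb, h⟩ | ⟨b, hb, h⟩)
      · rw [Sum.inl.injEq] at h
        exact h ▸ hb
      · exact absurd h (by simp)
    · intro ha
      exact Or.inl ⟨a, ha, rfl⟩
  have hr : ∀ a : V₂, (Sum.inr a : V₁ ⊕ V₂) ∈ X ↔ a ∈ X₂ := by
    intro a
    show (_ ∨ _) ↔ _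
    constructor
    · rintro (⟨b, hb, h⟩ | ⟨b, hb, h⟩)
      · exact absurd h (by simp)
      · rw [Sum.inr.injEq] at h
        exact h ▸ hb
    · intro ha
      exact Or.inr ⟨a, ha, rfl⟩
  have h1 := h X
  have e1 : LN61.vol (fun e => (Sum.inl (x e) : V₁ ⊕ V₂)) (fun e => Sum.inr (y e)) K X
      = vol x y K X₁ X₂ := by
    unfold LN61.vol vol
    congr 1
    · congr 1
      ext e
      simp only [Finset.mem_filter, hl]
    · congr 1
      ext e
      simp only [Finset.mem_filter, hr]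
  have e2 : LN61.bdy (fun e => (Sum.inl (x e) : V₁ ⊕ V₂)) (fun e => Sum.inr (y e)) K X
      = bd x y K X₁ X₂ := by
    unfold LN61.bdy bd
    rw [← Finset.card_union_of_disjoint]
    · congr 1
      ext e
      simp only [Finset.mem_filter, Finset.mem_union, hl, hr]
      tauto
    · rw [Finset.disjoint_left]
      intro e he he'
      simp only [Finset.mem_filter] at he he'
      exact he'.2.1 he.2.1
  have e3 : LN61.vol (fun e => (Sum.inl (x e) : V₁ ⊕ V₂)) (fun e => Sum.inr (y e)) K X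
      + LN61.vol (fun e => (Sum.inl (x e) : V₁ ⊕ V₂)) (fun e => Sum.inr (y e)) K Xᶜ
      = 2 * K.card := by
    have g1 := LN61.vol_eq (fun e => (Sum.inl (x e) : V₁ ⊕ V₂)) (fun e => Sum.inr (y e)) K X
    have g2 := LN61.vol_eq (fun e => (Sum.inl (x e) : V₁ ⊕ V₂)) (fun e => Sum.inr (y e)) K Xᶜ
    have g3 := LN61.card_eq_ins (fun e => (Sum.inl (x e) : V₁ ⊕ V₂)) (fun e => Sum.inr (y e)) K X
    rw [LN61.bdy_compl] at g2
    omega
  have e4 : (LN61.vol (fun e => (Sum.inl (x e) : V₁ ⊕ V₂)) (fun e => Sum.inr (y e)) K Xᶜ : ℝ)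
      = 2 * (K.card : ℝ) - (vol x y K X₁ X₂ : ℝ) := by
    have : ((LN61.vol (fun e => (Sum.inl (x e) : V₁ ⊕ V₂)) (fun e => Sum.inr (y e)) K X
      + LN61.vol (fun e => (Sum.inl (x e) : V₁ ⊕ V₂)) (fun e => Sum.inr (y e)) K Xᶜ : ℕ) : ℝ)
      = ((2 * K.card : ℕ) : ℝ) := by rw [e3]
    push_cast at this
    rw [e1] at this
    linarith
  rw [e4, e1, e2] at h1
  exact h1

/-- `one_level` with `phi = 1 / (8 k)` is applied again and again to the lost edges; their number
is halved every time, so that after `k + 1` levels nothing is left. A vertex is incident to at most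
one nonempty piece of every level (throw the empty pieces away). -/
theorem exists_decomp (x : ε → V₁) (y : ε → V₂) (k : ℕ) (hk : 1 ≤ k) (E : Finset ε)
    (hE : E.card ≤ 2 ^ k) :
    ∃ KK : Finset (Finset ε), IsDecomp x y E (1 / (8 * k)) k KK := by
  classical
  obtain ⟨KK, h1, h2, h3, h4⟩ := LN61.expander_decomp (fun e => (Sum.inl (x e) : V₁ ⊕ V₂))
    (fun e => Sum.inr (y e)) k hk (k + 1) E (by rw [pow_succ]; have := Nat.two_pow_pos k; omega) hE
  refine ⟨KK, ?_, ?_, h3, h2, ?_, ?_⟩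
  · intro K hK
    exact (h1 K hK).1
  · intro K hK
    exact isExp_of_isExpander x y _ K (h1 K hK).2.2
  · intro v
    refine le_trans (Finset.card_le_card ?_) (h4 (Sum.inl v))
    intro K hK
    simp only [Finset.mem_filter] at hK ⊢
    refine ⟨hK.1, ?_⟩
    obtain ⟨e, he, hev⟩ := Finset.mem_image.1 hK.2
    exact ⟨e, he, Or.inl (by rw [hev])⟩
  · intro v
    refine le_trans (Finset.card_le_card ?_) (h4 (Sum.inr v))
    intro K hK
    simp only [Finset.mem_filter] at hK ⊢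
    refine ⟨hK.1, ?_⟩
    obtain ⟨e, he, hev⟩ := Finset.mem_image.1 hK.2
    exact ⟨e, he, Or.inr (by rw [hev])⟩

end Pool.Agent.AsympTrans
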