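import Mathlib

/-!
Definitions for the bound `m - C n log² n` on the number of disjoint transversals
(MP_884cd1_co). Edges `e : ε` of a bipartite multigraph have a left vertex `x e : V₁`, a right
vertex `y e : V₂` and a colour `c e : Γ`.
-/

set_option autoImplicit false

namespace Pool.Agent.AsympTrans

open Finset

/-- expectation of `h L` for a `p`-random subset `L` of `U` -/
noncomputable def ex {Γ : Type*} [DecidableEq Γ] (U : Finset Γ) (p : ℝ) (h : Finset Γ → ℝ) : ℝ :=
  ∑ L ∈ U.powerset, p ^ L.card * (1 - p) ^ (U.card - L.card) * h L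

/-- the potential of a set `P` of used colours at time `s` -/
noncomputable def pot {Γ : Type*} [DecidableEq Γ] (AA : Finset (Finset Γ)) (P : Finset Γ) (s : ℝ) :
    ℝ :=
  ∑ A ∈ AA, Real.exp (((A ∩ P).card : ℝ) - 2 * s * (A.card : ℝ))

section Graph

variable {ε V₁ V₂ Γ : Type*} [DecidableEq ε] [DecidableEq V₁] [DecidableEq V₂] [DecidableEq Γ]

/-- at every left vertex the colours are different, at every right vertex the colours are
different -/
def Proper (x : ε → V₁) (y : ε → V₂) (c : ε → Γ) (E : Finset ε) : Prop :=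
  (∀ e ∈ E, ∀ f ∈ E, x e = x f → c e = c f → e = f) ∧
    (∀ e ∈ E, ∀ f ∈ E, y e = y f → c e = c f → e = f)

/-- `M ⊆ E` is a rainbow matching -/
def Rainbow (x : ε → V₁) (y : ε → V₂) (c : ε → Γ) (E M : Finset ε) : Prop :=
  M ⊆ E ∧ Set.InjOn x (M : Set ε) ∧ Set.InjOn y (M : Set ε) ∧ Set.InjOn c (M : Set ε)

/-- with the new colours `L` the matching `M` can be changed so that one more vertex of `T` is
covered and no right vertex is lost -/
def Aug (x : ε → V₁) (y : ε → V₂) (c : ε → Γ) (E : Finset ε) (T : Finset V₁) (M : Finset ε)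
    (L : Finset Γ) : Prop :=
  ∃ M', Rainbow x y c E M' ∧ M'.image c ⊆ M.image c ∪ L ∧
    (T \ M'.image x).card < (T \ M.image x).card ∧ M.image y ⊆ M'.image y

/-- `Path L A v`: there is an alternating path with different colours in `L` from an uncovered
vertex of `T` to `v`, whose set of left vertices is `A` -/
inductive Path (x : ε → V₁) (y : ε → V₂) (c : ε → Γ) (E M : Finset ε) (T : Finset V₁) :
    Finset Γ → Finset V₁ → V₁ → Prop
  | src (L : Finset Γ) (v : V₁) (hT : v ∈ T) (hM : v ∉ M.image x) : Path x y c E M T L {v} v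
  | step (L : Finset Γ) (A : Finset V₁) (e f : ε) (he : e ∈ E) (hc : c e ∈ L) (hf : f ∈ M)
      (hy : y f = y e) (hT : x f ∈ T) (hA : x f ∉ A)
      (h : Path x y c E M T (L.erase (c e)) A (x e)) :
      Path x y c E M T L (insert (x f) A) (x f)

/-- the vertices of `T` that can be reached with the colours `L` -/
noncomputable def reach (x : ε → V₁) (y : ε → V₂) (c : ε → Γ) (E M : Finset ε) (T : Finset V₁)
    (L : Finset Γ) : Finset V₁ :=
  open Classical in T.filter (fun v => ∃ A, Path x y c E M T L A v)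

/-- a good end of a path is reached with the colours `L` -/
def Succeeds (x : ε → V₁) (y : ε → V₂) (c : ε → Γ) (E M : Finset ε) (T : Finset V₁)
    (L : Finset Γ) : Prop :=
  ∃ e ∈ E, c e ∈ L ∧ (∃ A, Path x y c E M T (L.erase (c e)) A (x e)) ∧
    ((∀ f ∈ M, y f ≠ y e) ∨ ∃ f ∈ M, y f = y e ∧ x f ∉ T)

/-- the potential of the Russo argument -/
noncomputable def gfun (x : ε → V₁) (y : ε → V₂) (c : ε → Γ) (E M : Finset ε) (T : Finset V₁)
    (L : Finset Γ) : ℝ :=
  open Classical in
  if Succeeds x y c E M T L then 2 * (T.card : ℝ)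
  else ((reach x y c E M T L).card : ℝ) - ((T \ M.image x).card : ℝ)

/-- volume of the vertex set `(X₁, X₂)` in the edge set `K` -/
def vol (x : ε → V₁) (y : ε → V₂) (K : Finset ε) (X₁ : Finset V₁) (X₂ : Finset V₂) : ℕ :=
  (K.filter (fun e => x e ∈ X₁)).card + (K.filter (fun e => y e ∈ X₂)).card

/-- number of edges of `K` on the boundary of the vertex set `(X₁, X₂)` -/
def bd (x : ε → V₁) (y : ε → V₂) (K : Finset ε) (X₁ : Finset V₁) (X₂ : Finset V₂) : ℕ :=
  (K.filter (fun e => ¬ (x e ∈ X₁ ↔ y e ∈ X₂))).card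

/-- `K` is a `phi`-expander -/
def IsExp (x : ε → V₁) (y : ε → V₂) (phi : ℝ) (K : Finset ε) : Prop :=
  ∀ (X₁ : Finset V₁) (X₂ : Finset V₂),
    phi * min (vol x y K X₁ X₂ : ℝ) (2 * (K.card : ℝ) - (vol x y K X₁ X₂ : ℝ)) ≤
      (bd x y K X₁ X₂ : ℝ)

/-- a decomposition of `E` into `phi`-expanders such that every vertex is incident to at most
`k + 1` of them -/
structure IsDecomp (x : ε → V₁) (y : ε → V₂) (E : Finset ε) (phi : ℝ) (k : ℕ)
    (KK : Finset (Finset ε)) : Prop where
  sub : ∀ K ∈ KK, K ⊆ E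
  exp : ∀ K ∈ KK, IsExp x y phi K
  disj : ∀ K ∈ KK, ∀ K' ∈ KK, K ≠ K' → Disjoint K K'
  cover : ∀ e ∈ E, ∃ K ∈ KK, e ∈ K
  left : ∀ v : V₁, (KK.filter (fun K => v ∈ K.image x)).card ≤ k + 1
  right : ∀ w : V₂, (KK.filter (fun K => w ∈ K.image y)).card ≤ k + 1

/-- `e` is low in `K`: its right vertex has `K`-degree less than `th / eps` -/
def Low (y : ε → V₂) (eps th : ℝ) (K : Finset ε) (e : ε) : Prop :=
  eps * ((K.filter (fun f => y f = y e)).card : ℝ) < th

/-- the set `P` of colours is thin at the left vertices in `T` and at all right vertices, with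
respect to all pieces of the decomposition -/
structure Thin (x : ε → V₁) (y : ε → V₂) (c : ε → Γ) (KK : Finset (Finset ε)) (T : Finset V₁)
    (eps th : ℝ) (P : Finset Γ) : Prop where
  left : ∀ K ∈ KK, ∀ v ∈ T, ((K.filter (fun e => x e = v ∧ c e ∈ P)).card : ℝ) ≤
    eps * ((K.filter (fun e => x e = v)).card : ℝ) + th
  right : ∀ K ∈ KK, ∀ w : V₂, ((K.filter (fun e => y e = w ∧ c e ∈ P)).card : ℝ) ≤
    eps * ((K.filter (fun e => y e = w)).card : ℝ) + th
  low : ∀ K ∈ KK, ∀ v ∈ T,
    open Classical in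
    ((K.filter (fun e => x e = v ∧ Low y eps th K e ∧ c e ∈ P)).card : ℝ) ≤
      eps * ((K.filter (fun e => x e = v ∧ Low y eps th K e)).card : ℝ) + th

/-- the cut condition: with the colours outside `P` every pair `(X, Q)` with `|Q| < |X|`, `X ⊆ T`,
has at least `D (|X| - |Q|) / 2` edges from `X` to the complement of `Q` -/
def CutCond (x : ε → V₁) (y : ε → V₂) (c : ε → Γ) (E : Finset ε) (T : Finset V₁) (D : ℝ)
    (P : Finset Γ) : Prop :=
  ∀ X ⊆ T, ∀ Q : Finset V₂, Q.card < X.card →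
    D / 2 * ((X.card : ℝ) - (Q.card : ℝ)) ≤
      ((E.filter (fun e => c e ∉ P ∧ x e ∈ X ∧ y e ∉ Q)).card : ℝ)

end Graph

end Pool.Agent.AsympTrans
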