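import Pool.Agent.AsympTrans.Defs

/-! Package AT10: the family of colour sets. -/

set_option autoImplicit false

namespace Pool.Agent.AsympTrans

open Finset

/-- If `c` is injective on `S`, then the number of elements of `S` with colour in `P` is the size
of the intersection of the set of colours of `S` with `P`. -/
theorem card_filter_colour {ε Γ : Type*} [DecidableEq ε] [DecidableEq Γ] (c : ε → Γ)
    (S : Finset ε) (hc : ∀ e ∈ S, ∀ f ∈ S, c e = c f → e = f) (P : Finset Γ) :
    (S.filter (fun e => c e ∈ P)).card = (S.image c ∩ P).card := by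
  have h : S.image c ∩ P = (S.filter (fun e => c e ∈ P)).image c := by
    ext g
    simp only [mem_inter, mem_image, mem_filter]
    constructor
    · rintro ⟨⟨e, he, rfl⟩, hg⟩
      exact ⟨e, ⟨he, hg⟩, rfl⟩
    · rintro ⟨e, ⟨he, hg⟩, rfl⟩
      exact ⟨⟨e, he, rfl⟩, hg⟩
  rw [h, card_image_of_injOn]
  intro e he f hf hef
  simp only [coe_filter, Set.mem_setOf_eq] at he hf
  exact hc e he.1 f hf.1 hef

/-- The bound for one colour set. -/
theorem thin_of_mem {ε Γ : Type*} [DecidableEq ε] [DecidableEq Γ] (c : ε → Γ)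
    (S : Finset ε) (hc : ∀ e ∈ S, ∀ f ∈ S, c e = c f → e = f) (P : Finset Γ) (eps th : ℝ)
    (h : ((S.image c ∩ P).card : ℝ) ≤ eps * ((S.image c).card : ℝ) + th) :
    ((S.filter (fun e => c e ∈ P)).card : ℝ) ≤ eps * (S.card : ℝ) + th := by
  rw [card_filter_colour c S hc P]
  rwa [card_image_of_injOn (s := S) (f := c) (fun e he f hf hef => hc e he f hf hef)] at h

variable {ε V₁ V₂ Γ : Type*} [DecidableEq ε] [DecidableEq V₁] [DecidableEq V₂] [DecidableEq Γ]

/-- the family of the colour sets of the pieces at the vertices, for both directions. Members for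
`K ∈ KK`: colours of `{e ∈ K, x e = v}` for `v ∈ K.image x`, of `{e ∈ K, y e = w}` for
`w ∈ K.image y`, of the low edges of `{e ∈ K, x e = v}` and of the low edges (with respect to `x`)
of `{e ∈ K, y e = w}`; and `∅`. By properness `|A ∩ P|` is the number of edges with colours in
`P`. At most `4 |K|` sets for each piece. -/
theorem exists_family (x : ε → V₁) (y : ε → V₂) (c : ε → Γ) (E : Finset ε) (phi : ℝ) (k : ℕ)
    (hP : Proper x y c E) (KK : Finset (Finset ε)) (hKK : IsDecomp x y E phi k KK)
    (eps th : ℝ) (heps : 0 ≤ eps) (hth : 0 ≤ th) :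
    ∃ AA : Finset (Finset Γ), AA.Nonempty ∧ AA.card ≤ 4 * E.card + 1 ∧
      ∀ P : Finset Γ, (∀ A ∈ AA, ((A ∩ P).card : ℝ) ≤ eps * A.card + th) →
        (∀ T : Finset V₁, Thin x y c KK T eps th P) ∧
          ∀ T : Finset V₂, Thin y x c KK T eps th P := by
  classical
  -- the four kinds of sets
  let S1 : Finset ε → ε → Finset Γ := fun K f => (K.filter (fun e => x e = x f)).image c
  let S2 : Finset ε → ε → Finset Γ := fun K f => (K.filter (fun e => y e = y f)).image c
  let S3 : Finset ε → ε → Finset Γ := fun K f =>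
    (K.filter (fun e => x e = x f ∧ Low y eps th K e)).image c
  let S4 : Finset ε → ε → Finset Γ := fun K f =>
    (K.filter (fun e => y e = y f ∧ Low x eps th K e)).image c
  let B : Finset ε → Finset (Finset Γ) := fun K =>
    K.image (S1 K) ∪ K.image (S2 K) ∪ K.image (S3 K) ∪ K.image (S4 K)
  have hB : ∀ K, (B K).card ≤ 4 * K.card := by
    intro K
    have h1 := card_union_le (K.image (S1 K) ∪ K.image (S2 K) ∪ K.image (S3 K)) (K.image (S4 K))
    have h2 := card_union_le (K.image (S1 K) ∪ K.image (S2 K)) (K.image (S3 K))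
    have h3 := card_union_le (K.image (S1 K)) (K.image (S2 K))
    have h4 := card_image_le (s := K) (f := S1 K)
    have h5 := card_image_le (s := K) (f := S2 K)
    have h6 := card_image_le (s := K) (f := S3 K)
    have h7 := card_image_le (s := K) (f := S4 K)
    change (K.image (S1 K) ∪ K.image (S2 K) ∪ K.image (S3 K) ∪ K.image (S4 K)).card ≤ _
    omega
  have hsum : ∑ K ∈ KK, K.card ≤ E.card := by
    rw [← card_biUnion (fun K hK K' hK' hne => hKK.disj K hK K' hK' hne)]
    apply card_le_card
    intro e he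
    rw [mem_biUnion] at he
    obtain ⟨K, hK, he⟩ := he
    exact hKK.sub K hK he
  refine ⟨insert ∅ (KK.biUnion B), insert_nonempty _ _, ?_, ?_⟩
  · refine (card_insert_le _ _).trans ?_
    have h1 : (KK.biUnion B).card ≤ ∑ K ∈ KK, (B K).card := card_biUnion_le
    have h2 : ∑ K ∈ KK, (B K).card ≤ ∑ K ∈ KK, 4 * K.card := sum_le_sum (fun K _ => hB K)
    rw [← mul_sum] at h2
    omega
  · intro P hPP
    have hmem : ∀ K ∈ KK, ∀ A ∈ B K, ((A ∩ P).card : ℝ) ≤ eps * A.card + th :=
      fun K hK A hA => hPP A (mem_insert_of_mem (mem_biUnion.2 ⟨K, hK, hA⟩))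
    have hX : ∀ K ∈ KK, ∀ v : V₁, ∀ e ∈ K, ∀ f ∈ K, x e = v → x f = v → c e = c f → e = f :=
      fun K hK v e he f hf h1 h2 h3 =>
        hP.1 e (hKK.sub K hK he) f (hKK.sub K hK hf) (h1.trans h2.symm) h3
    have hY : ∀ K ∈ KK, ∀ w : V₂, ∀ e ∈ K, ∀ f ∈ K, y e = w → y f = w → c e = c f → e = f :=
      fun K hK w e he f hf h1 h2 h3 =>
        hP.2 e (hKK.sub K hK he) f (hKK.sub K hK hf) (h1.trans h2.symm) h3
    -- the three bounds, for both directions
    have key : ∀ (K : Finset ε) (q : ε → Prop) [DecidablePred q],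
        (∀ e ∈ K, ∀ f ∈ K, q e → q f → c e = c f → e = f) →
        ((((K.filter q).image c) ∩ P).card : ℝ) ≤ eps * (((K.filter q).image c).card : ℝ) + th →
        ((K.filter (fun e => q e ∧ c e ∈ P)).card : ℝ) ≤ eps * ((K.filter q).card : ℝ) + th := by
      intro K q _ hinj hb
      have h := thin_of_mem c (K.filter q) (by
        intro e he f hf hef
        rw [mem_filter] at he hf
        exact hinj e he.1 f hf.1 he.2 hf.2 hef) P eps th hb
      rwa [filter_filter] at h
    have zero : ∀ (K : Finset ε) (q : ε → Prop) [DecidablePred q], (∀ e ∈ K, ¬ q e) →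
        ((K.filter (fun e => q e ∧ c e ∈ P)).card : ℝ) ≤ eps * ((K.filter q).card : ℝ) + th := by
      intro K q _ hq
      have h1 : K.filter (fun e => q e ∧ c e ∈ P) = ∅ :=
        filter_eq_empty_iff.2 (fun e he h => hq e he h.1)
      have h2 : K.filter q = ∅ := filter_eq_empty_iff.2 (fun e he h => hq e he h)
      rw [h1, h2]
      simpa using hth
    have b1 : ∀ K ∈ KK, ∀ v : V₁, ((K.filter (fun e => x e = v ∧ c e ∈ P)).card : ℝ) ≤
        eps * ((K.filter (fun e => x e = v)).card : ℝ) + th := by
      intro K hK v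
      by_cases hv : ∃ f ∈ K, x f = v
      · obtain ⟨f, hf, rfl⟩ := hv
        apply key K (fun e => x e = x f)
        · exact fun e he g hg h1 h2 h3 => hX K hK _ e he g hg h1 h2 h3
        · exact hmem K hK (S1 K f) (by
            simp only [B, mem_union]
            exact Or.inl (Or.inl (Or.inl (mem_image_of_mem _ hf))))
      · push Not at hv
        exact zero K (fun e => x e = v) hv
    have b2 : ∀ K ∈ KK, ∀ w : V₂, ((K.filter (fun e => y e = w ∧ c e ∈ P)).card : ℝ) ≤
        eps * ((K.filter (fun e => y e = w)).card : ℝ) + th := by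
      intro K hK w
      by_cases hv : ∃ f ∈ K, y f = w
      · obtain ⟨f, hf, rfl⟩ := hv
        apply key K (fun e => y e = y f)
        · exact fun e he g hg h1 h2 h3 => hY K hK _ e he g hg h1 h2 h3
        · exact hmem K hK (S2 K f) (by
            simp only [B, mem_union]
            exact Or.inl (Or.inl (Or.inr (mem_image_of_mem _ hf))))
      · push Not at hv
        exact zero K (fun e => y e = w) hv
    have b3 : ∀ K ∈ KK, ∀ v : V₁,
        ((K.filter (fun e => (x e = v ∧ Low y eps th K e) ∧ c e ∈ P)).card : ℝ) ≤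
        eps * ((K.filter (fun e => x e = v ∧ Low y eps th K e)).card : ℝ) + th := by
      intro K hK v
      by_cases hv : ∃ f ∈ K, x f = v
      · obtain ⟨f, hf, rfl⟩ := hv
        apply key K (fun e => x e = x f ∧ Low y eps th K e)
        · exact fun e he g hg h1 h2 h3 => hX K hK _ e he g hg h1.1 h2.1 h3
        · exact hmem K hK (S3 K f) (by
            simp only [B, mem_union]
            exact Or.inl (Or.inr (mem_image_of_mem _ hf)))
      · push Not at hv
        exact zero K (fun e => x e = v ∧ Low y eps th K e) (fun e he h => hv e he h.1)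
    have b4 : ∀ K ∈ KK, ∀ w : V₂,
        ((K.filter (fun e => (y e = w ∧ Low x eps th K e) ∧ c e ∈ P)).card : ℝ) ≤
        eps * ((K.filter (fun e => y e = w ∧ Low x eps th K e)).card : ℝ) + th := by
      intro K hK w
      by_cases hv : ∃ f ∈ K, y f = w
      · obtain ⟨f, hf, rfl⟩ := hv
        apply key K (fun e => y e = y f ∧ Low x eps th K e)
        · exact fun e he g hg h1 h2 h3 => hY K hK _ e he g hg h1.1 h2.1 h3
        · exact hmem K hK (S4 K f) (by
            simp only [B, mem_union]
            exact Or.inr (mem_image_of_mem _ hf))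
      · push Not at hv
        exact zero K (fun e => y e = w ∧ Low x eps th K e) (fun e he h => hv e he h.1)
    refine ⟨fun T => ⟨fun K hK v _ => ?_, fun K hK w => ?_, fun K hK v _ => ?_⟩,
      fun T => ⟨fun K hK v _ => ?_, fun K hK w => ?_, fun K hK v _ => ?_⟩⟩
    · convert b1 K hK v
    · convert b2 K hK w
    · have h := b3 K hK v
      simp only [and_assoc] at h
      convert h
    · convert b2 K hK v
    · convert b1 K hK w
    · have h := b4 K hK v
      simp only [and_assoc] at h
      convert h

end Pool.Agent.AsympTrans
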