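import Pool.Agent.AsympTrans.Matching
import Pool.Agent.DisjTrans15.Exchange

/-! Package AT12: the bound for row-Latin rectangles. -/

set_option autoImplicit false

namespace Pool.Agent.AsympTrans

open Finset

/-- From a set of cells with distinct rows and distinct symbols that meets every column to a
function. -/
theorem of_cells {m n : ℕ} {S : Type*} [DecidableEq S] (A : Fin m → Fin n → S)
    (F M : Finset (Fin m × Fin n)) (Z : Finset S) (hMF : M ⊆ F)
    (h1 : ∀ e ∈ M, ∀ f ∈ M, e.1 = f.1 → e = f)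
    (h2 : ∀ e ∈ M, ∀ f ∈ M, e.2 = f.2 → e = f)
    (h3 : ∀ e ∈ M, ∀ f ∈ M, A e.1 e.2 = A f.1 f.2 → e = f)
    (h4 : ∀ j, ∃ e ∈ M, e.2 = j) (h5 : ∀ q ∈ Z, ∃ e ∈ M, A e.1 e.2 = q) :
    ∃ t : Fin n → Fin m, Function.Injective t ∧ Function.Injective (fun j => A (t j) j) ∧
      (∀ j, (t j, j) ∈ F) ∧ ∀ q ∈ Z, ∃ j, A (t j) j = q := by
  choose g hg hg2 using h4
  have h6 : ∀ j, ((g j).1, j) = g j := fun j => Prod.ext rfl (hg2 j).symm
  refine ⟨fun j => (g j).1, ?_, ?_, ?_, ?_⟩
  · intro j j' h
    have h7 := h1 (g j) (hg j) (g j') (hg j') h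
    rw [← hg2 j, ← hg2 j', h7]
  · intro j j' h
    have h8 : A (g j).1 (g j).2 = A (g j').1 (g j').2 := by
      rw [hg2 j, hg2 j']
      exact h
    have h7 := h3 (g j) (hg j) (g j') (hg j') h8
    rw [← hg2 j, ← hg2 j', h7]
  · intro j
    rw [h6 j]
    exact hMF (hg j)
  · intro q hq
    obtain ⟨e, he, heq⟩ := h5 q hq
    refine ⟨e.2, ?_⟩
    have h7 : g e.2 = e := h2 _ (hg _) e he (hg2 _)
    change A (g e.2).1 e.2 = q
    rw [h7]
    exact heq

/-- Rainbow matchings with any prescribed set of tight symbols. -/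
theorem exists_tight {m n : ℕ} {S : Type*} [DecidableEq S] (A : Fin m → Fin n → S)
    (hA : ∀ i, Function.Injective (A i)) (F : Finset (Fin m × Fin n)) (D : ℕ)
    (hD : n * (n - 1) < D) (hcol : ∀ j, (F.filter (fun e => e.2 = j)).card = D)
    (Z : Finset S) (hZ : ∀ q ∈ Z, (F.filter (fun e => A e.1 e.2 = q)).card = D)
    (hZn : Z.card ≤ n) :
    ∃ M, DisjTrans15.IsRb (fun e : Fin m × Fin n => A e.1 e.2) Prod.snd Prod.fst F M ∧
      M.image (fun e : Fin m × Fin n => A e.1 e.2) = Z := by
  classical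
  induction Z using Finset.induction_on with
  | empty =>
    refine ⟨∅, ⟨?_, ?_, ?_, ?_⟩, ?_⟩ <;> simp
  | @insert s Z hs ih =>
    rw [Finset.card_insert_of_notMem hs] at hZn
    obtain ⟨M₀, h1, h2⟩ := ih (fun t ht => hZ t (Finset.mem_insert_of_mem ht)) (by omega)
    have hM : M₀.card = Z.card := by
      rw [← h2, Finset.card_image_of_injOn]
      intro e he f hf hef
      exact h1.ia e he f hf hef
    have hlt : M₀.card * (M₀.card + 1) < D := by
      refine lt_of_le_of_lt ?_ hD
      rw [Nat.mul_comm n]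
      exact Nat.mul_le_mul (by omega) (by omega)
    obtain ⟨M, h3, h4, -⟩ := DisjTrans15.exists_extend (x₀ := s) (d := D) h1 (by
        intro e _ f _ h h'
        have h5 : A e.1 e.2 = A f.1 f.2 := h
        rw [← h'] at h5
        exact Prod.ext h' (hA _ h5)) (by rw [h2]; exact hs) (by
        intro q hq
        rw [h2] at hq
        exact (hZ q hq).ge) (fun j => (hcol j).le) hlt
    exact ⟨M, h3, by rw [h4, h2]⟩

/-- Extension of a rainbow matching to all columns. -/
theorem exists_full {m n : ℕ} {S : Type*} [DecidableEq S] (A : Fin m → Fin n → S)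
    (F : Finset (Fin m × Fin n)) (D : ℕ)
    (hD : n * (n - 1) < D) (hcol : ∀ j, (F.filter (fun e => e.2 = j)).card = D)
    (hsym : ∀ q, (F.filter (fun e => A e.1 e.2 = q)).card ≤ D) (Z : Finset S) (t : ℕ) :
    ∀ M, DisjTrans15.IsRb Prod.snd (fun e : Fin m × Fin n => A e.1 e.2) Prod.fst F M →
      Z ⊆ M.image (fun e : Fin m × Fin n => A e.1 e.2) → M.card + t = n →
      ∃ M', DisjTrans15.IsRb Prod.snd (fun e : Fin m × Fin n => A e.1 e.2) Prod.fst F M' ∧
        Z ⊆ M'.image (fun e : Fin m × Fin n => A e.1 e.2) ∧ M'.card = n := by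
  classical
  induction t with
  | zero =>
    intro M h1 h2 h3
    exact ⟨M, h1, h2, by omega⟩
  | succ t ih =>
    intro M h1 h2 h3
    have hcard : (M.image Prod.snd).card = M.card := by
      rw [Finset.card_image_of_injOn]
      intro e he f hf hef
      exact h1.ia e he f hf hef
    have hex : ∃ j, j ∉ M.image Prod.snd := by
      by_contra hcon
      push Not at hcon
      have h4 : M.image Prod.snd = (Finset.univ : Finset (Fin n)) :=
        Finset.eq_univ_iff_forall.mpr hcon
      rw [h4, Finset.card_univ, Fintype.card_fin] at hcard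
      omega
    obtain ⟨j, hj⟩ := hex
    have hlt : M.card * (M.card + 1) < D := by
      refine lt_of_le_of_lt ?_ hD
      rw [Nat.mul_comm n]
      exact Nat.mul_le_mul (by omega) (by omega)
    obtain ⟨M', h4, h5, h6⟩ := DisjTrans15.exists_extend (x₀ := j) (d := D) h1 (by
        intro e _ f _ h h'
        exact Prod.ext h' h) hj (fun x _ => (hcol x).ge) hsym hlt
    refine ih M' h4 (h2.trans h6) ?_
    have h7 : (M'.image Prod.snd).card = M'.card := by
      rw [Finset.card_image_of_injOn]
      intro e he f hf hef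
      exact h4.ia e he f hf hef
    rw [h5, Finset.card_insert_of_notMem hj, hcard] at h7
    omega

/-- Many free cells (`D > n (n - 1)` in every column, at most `D` for every symbol): there is a
transversal of free cells that contains all tight symbols. (helper15's step.) -/
theorem step_large {m n : ℕ} {S : Type*} [DecidableEq S] (A : Fin m → Fin n → S)
    (hA : ∀ i, Function.Injective (A i)) (F : Finset (Fin m × Fin n)) (D : ℕ)
    (hD : n * (n - 1) < D) (hcol : ∀ j, (F.filter (fun e => e.2 = j)).card = D)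
    (hsym : ∀ q, (F.filter (fun e => A e.1 e.2 = q)).card ≤ D) :
    ∃ t : Fin n → Fin m, Function.Injective t ∧ Function.Injective (fun j => A (t j) j) ∧
      (∀ j, (t j, j) ∈ F) ∧
      ∀ q, (F.filter (fun e => A e.1 e.2 = q)).card = D → ∃ j, A (t j) j = q := by
  classical
  set Z : Finset S := (F.image (fun e => A e.1 e.2)).filter
    (fun q => (F.filter (fun e => A e.1 e.2 = q)).card = D) with hZ
  have hZD : ∀ q ∈ Z, (F.filter (fun e => A e.1 e.2 = q)).card = D := fun q hq =>
    (Finset.mem_filter.mp hq).2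
  have hF : F.card = n * D := by
    rw [Finset.card_eq_sum_card_fiberwise (f := Prod.snd) (t := Finset.univ)
      (fun _ _ => Finset.mem_univ _)]
    rw [Finset.sum_congr rfl fun j _ => hcol j, Finset.sum_const, Finset.card_univ,
      Fintype.card_fin, smul_eq_mul]
  have hZn : Z.card ≤ n := by
    have h1 : Z.card * D ≤ F.card := by
      rw [Finset.card_eq_sum_card_image (fun e : Fin m × Fin n => A e.1 e.2) F]
      calc Z.card * D = ∑ q ∈ Z, (F.filter (fun e => A e.1 e.2 = q)).card := by
            rw [Finset.sum_congr rfl hZD, Finset.sum_const, smul_eq_mul]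
        _ ≤ _ := Finset.sum_le_sum_of_subset (Finset.filter_subset _ _)
    rw [hF] at h1
    exact Nat.le_of_mul_le_mul_right h1 (by omega)
  obtain ⟨M₀, h1, h2⟩ := exists_tight A hA F D hD hcol Z hZD hZn
  have h3 : M₀.card = Z.card := by
    rw [← h2, Finset.card_image_of_injOn]
    intro e he f hf hef
    exact h1.ia e he f hf hef
  obtain ⟨M, h4, h5, h6⟩ := exists_full A F D hD hcol hsym Z (n - M₀.card) M₀
    ⟨h1.sub, h1.ib, h1.ia, h1.ir⟩ (by rw [h2]) (by omega)
  have h7 : M.image Prod.snd = (Finset.univ : Finset (Fin n)) := by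
    rw [← Finset.card_eq_iff_eq_univ, Finset.card_image_of_injOn, h6, Fintype.card_fin]
    intro e he f hf hef
    exact h4.ia e he f hf hef
  obtain ⟨t, t1, t2, t3, t4⟩ := of_cells A F M Z h4.sub h4.ir h4.ia h4.ib (by
      intro j
      have h8 := Finset.mem_univ j
      rw [← h7, Finset.mem_image] at h8
      exact h8) (by
      intro q hq
      have h8 := h5 hq
      rw [Finset.mem_image] at h8
      exact h8)
  refine ⟨t, t1, t2, t3, ?_⟩
  intro q hq
  refine t4 q (Finset.mem_filter.mpr ⟨?_, hq⟩)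
  have h8 : 0 < (F.filter (fun e => A e.1 e.2 = q)).card := by omega
  obtain ⟨e, he⟩ := Finset.card_pos.mp h8
  rw [Finset.mem_filter] at he
  exact Finset.mem_image.mpr ⟨e, he.1, he.2⟩

/-- The same for `131072 n (log₂ n + 1)² ≤ D ≤ n²`: `exists_rainbow` with `x = Prod.snd`,
`y e = A e.1 e.2`, `c = Prod.fst`, `k = 3 (log₂ n + 1)` (`|F| = n D ≤ n³ ≤ 2 ^ k`) and
`H_n ≤ 1 + log n ≤ log₂ n + 2`, hence `H_n ≤ ...`. -/
theorem step_small {m n : ℕ} (hn : 1 ≤ n) {S : Type*} [DecidableEq S] (A : Fin m → Fin n → S)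
    (hA : ∀ i, Function.Injective (A i)) (F : Finset (Fin m × Fin n)) (D : ℕ)
    (hD : 131072 * n * (Nat.log 2 n + 1) ^ 2 ≤ D) (hD2 : D ≤ n ^ 2)
    (hcol : ∀ j, (F.filter (fun e => e.2 = j)).card = D)
    (hsym : ∀ q, (F.filter (fun e => A e.1 e.2 = q)).card ≤ D) :
    ∃ t : Fin n → Fin m, Function.Injective t ∧ Function.Injective (fun j => A (t j) j) ∧
      (∀ j, (t j, j) ∈ F) ∧
      ∀ q, (F.filter (fun e => A e.1 e.2 = q)).card = D → ∃ j, A (t j) j = q := by
  classical
  set L := Nat.log 2 n + 1 with hL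
  have hL1 : 1 ≤ L := by omega
  have hnL : n < 2 ^ L := Nat.lt_pow_succ_log_self (by norm_num) n
  -- `n` is large
  have hn2 : 131072 ≤ n := by
    by_contra hcon
    push Not at hcon
    have h1 : n ^ 2 < 131072 * n * L ^ 2 := by
      have h2 : 131072 * n * 1 ≤ 131072 * n * L ^ 2 :=
        Nat.mul_le_mul_left _ (Nat.one_le_pow _ _ hL1)
      nlinarith
    omega
  have hL17 : 17 < L := by
    by_contra hcon
    push Not at hcon
    have h1 : 2 ^ L ≤ 2 ^ 17 := Nat.pow_le_pow_right (by norm_num) hcon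
    have h2 : (2 : ℕ) ^ 17 = 131072 := by norm_num
    omega
  have hF : F.card = n * D := by
    rw [Finset.card_eq_sum_card_fiberwise (f := Prod.snd) (t := Finset.univ)
      (fun _ _ => Finset.mem_univ _)]
    rw [Finset.sum_congr rfl fun j _ => hcol j, Finset.sum_const, Finset.card_univ,
      Fintype.card_fin, smul_eq_mul]
  have hE : F.card ≤ 2 ^ (3 * L) := by
    rw [hF]
    calc n * D ≤ n * n ^ 2 := Nat.mul_le_mul_left _ hD2
      _ = n ^ 3 := by ring
      _ ≤ (2 ^ L) ^ 3 := Nat.pow_le_pow_left hnL.le 3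
      _ = 2 ^ (3 * L) := by rw [← pow_mul, Nat.mul_comm]
  have hharm : ((harmonic n : ℚ) : ℝ) ≤ 1 + 0.7 * (L : ℝ) := by
    refine le_trans (harmonic_le_one_add_log n) ?_
    have h1 : Real.log n ≤ (L : ℝ) * Real.log 2 := by
      rw [← Real.log_pow]
      refine Real.log_le_log (by positivity) ?_
      exact_mod_cast hnL.le
    have h2 : Real.log 2 ≤ 0.7 := by
      have := Real.log_two_lt_d9
      linarith
    have h3 : (L : ℝ) * Real.log 2 ≤ (L : ℝ) * 0.7 := mul_le_mul_of_nonneg_left h2 (by positivity)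
    linarith
  have hDR : 30720 * ((3 * L : ℕ) : ℝ) * (n : ℝ) * ((harmonic n : ℚ) : ℝ) ≤ (D : ℝ) := by
    have h1 : (131072 * (n : ℝ) * (L : ℝ) ^ 2) ≤ (D : ℝ) := by exact_mod_cast hD
    have hLR : (18 : ℝ) ≤ (L : ℝ) := by exact_mod_cast hL17
    have h2 : ((harmonic n : ℚ) : ℝ) ≤ 1.4 * (L : ℝ) := by linarith
    have h3 : 0 ≤ 30720 * ((3 * L : ℕ) : ℝ) * (n : ℝ) := by positivity
    calc 30720 * ((3 * L : ℕ) : ℝ) * (n : ℝ) * ((harmonic n : ℚ) : ℝ)
        ≤ 30720 * ((3 * L : ℕ) : ℝ) * (n : ℝ) * (1.4 * (L : ℝ)) :=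
          mul_le_mul_of_nonneg_left h2 h3
      _ = 129024 * ((n : ℝ) * (L : ℝ) ^ 2) := by
          push_cast
          ring
      _ ≤ 131072 * ((n : ℝ) * (L : ℝ) ^ 2) := by
          have : 0 ≤ (n : ℝ) * (L : ℝ) ^ 2 := by positivity
          linarith
      _ ≤ (D : ℝ) := by linarith
  have hD' : 8 * (3 * L + 1) * (3 * L + 3) * n ≤ D := by
    refine le_trans ?_ hD
    have h0 : 3 * L + 1 ≤ 4 * L := by omega
    have h0' : 3 * L + 3 ≤ 6 * L := by omega
    have h1 : 8 * (3 * L + 1) * (3 * L + 3) ≤ 8 * (4 * L) * (6 * L) :=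
      Nat.mul_le_mul (Nat.mul_le_mul_left _ h0) h0'
    calc 8 * (3 * L + 1) * (3 * L + 3) * n ≤ 8 * (4 * L) * (6 * L) * n :=
          Nat.mul_le_mul_right _ h1
      _ = 192 * (n * L ^ 2) := by ring
      _ ≤ 131072 * (n * L ^ 2) := Nat.mul_le_mul_right _ (by norm_num)
      _ = 131072 * n * L ^ 2 := (Nat.mul_assoc _ _ _).symm
  obtain ⟨M, ⟨hMF, hM1, hM2, hM3⟩, hMJ, hMt⟩ := exists_rainbow (V₁ := Fin n) (Γ := Fin m)
    Prod.snd (fun e : Fin m × Fin n => A e.1 e.2) Prod.fst F
    ⟨fun e _ f _ h h' => Prod.ext h' h, fun e _ f _ h h' => by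
      have h5 : A e.1 e.2 = A f.1 f.2 := h
      have h6 : e.1 = f.1 := h'
      rw [← h6] at h5
      exact Prod.ext h6 (hA _ h5)⟩ n hn Finset.univ (by rw [Finset.card_univ, Fintype.card_fin])
    (fun _ _ => Finset.mem_univ _) D (3 * L) (by omega) hE (fun v _ => hcol v) hsym hDR hD'
  obtain ⟨t, t1, t2, t3, t4⟩ := of_cells A F M
    ((M.image (fun e => A e.1 e.2)).filter
      (fun q => (F.filter (fun e => A e.1 e.2 = q)).card = D)) hMF
    (fun e he f hf h => hM3 he hf h) (fun e he f hf h => hM1 he hf h)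
    (fun e he f hf h => hM2 he hf h) (by
      intro j
      have h8 := hMJ (Finset.mem_univ j)
      rw [Finset.mem_image] at h8
      exact h8) (by
      intro q hq
      rw [Finset.mem_filter, Finset.mem_image] at hq
      exact hq.1)
  refine ⟨t, t1, t2, t3, ?_⟩
  intro q hq
  exact t4 q (Finset.mem_filter.mpr ⟨hMt q hq, hq⟩)

/-- Greedy: if the step is possible for all `D > D₀` then there are `m - D₀` disjoint
transversals. -/
theorem greedy {m n : ℕ} {S : Type*} [DecidableEq S] (A : Fin m → Fin n → S)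
    (hA : ∀ i, Function.Injective (A i)) (D₀ : ℕ)
    (hstep : ∀ (F : Finset (Fin m × Fin n)) (D : ℕ), D₀ < D →
      (∀ j, (F.filter (fun e => e.2 = j)).card = D) →
      (∀ q, (F.filter (fun e => A e.1 e.2 = q)).card ≤ D) →
      ∃ t : Fin n → Fin m, Function.Injective t ∧ Function.Injective (fun j => A (t j) j) ∧
        (∀ j, (t j, j) ∈ F) ∧
        ∀ q, (F.filter (fun e => A e.1 e.2 = q)).card = D → ∃ j, A (t j) j = q) :
    ∃ T : Fin (m - D₀) → Fin n → Fin m, (∀ s, Function.Injective (T s)) ∧
      (∀ s, Function.Injective (fun j => A (T s j) j)) ∧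
      ∀ j, Function.Injective (fun s => T s j) := by
  classical
  suffices h : ∀ N : ℕ, N ≤ m - D₀ → ∃ T : Fin N → Fin n → Fin m,
      (∀ s, Function.Injective (T s)) ∧ (∀ s, Function.Injective (fun j => A (T s j) j)) ∧
      (∀ j, Function.Injective (fun s => T s j)) ∧
      ∀ q, ((Finset.univ.filter (fun e : Fin m × Fin n => ∀ s, T s e.2 ≠ e.1)).filter
        (fun e => A e.1 e.2 = q)).card ≤ m - N by
    obtain ⟨T, h1, h2, h3, -⟩ := h (m - D₀) le_rfl
    exact ⟨T, h1, h2, h3⟩
  intro N
  induction N with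
  | zero =>
    intro _
    refine ⟨fun s => s.elim0, fun s => s.elim0, fun s => s.elim0, fun j s => s.elim0, ?_⟩
    intro q
    rw [Nat.sub_zero]
    calc _ ≤ (Finset.univ : Finset (Fin m)).card := by
          refine Finset.card_le_card_of_injOn Prod.fst (fun _ _ => Finset.mem_univ _) ?_
          intro e he f hf h
          have h1 := (Finset.mem_filter.mp he).2
          have h2 := (Finset.mem_filter.mp hf).2
          have h3 : A e.1 e.2 = A f.1 f.2 := h1.trans h2.symm
          rw [← h] at h3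
          exact Prod.ext h (hA _ h3)
      _ = m := by rw [Finset.card_univ, Fintype.card_fin]
  | succ N ih =>
    intro hN
    obtain ⟨T, h1, h2, h3, h4⟩ := ih (by omega)
    set F := Finset.univ.filter (fun e : Fin m × Fin n => ∀ s, T s e.2 ≠ e.1) with hF
    have hcol : ∀ j, (F.filter (fun e => e.2 = j)).card = m - N := by
      intro j
      have h5 : F.filter (fun e => e.2 = j) =
          (((Finset.univ : Finset (Fin N)).image (fun s => T s j))ᶜ).image
            (fun i : Fin m => (i, j)) := by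
        ext ⟨i, j'⟩
        simp only [hF, Finset.mem_filter, Finset.mem_univ, true_and, Finset.mem_image,
          Finset.mem_compl, not_exists, Prod.mk.injEq]
        constructor
        · rintro ⟨h, rfl⟩
          exact ⟨i, h, rfl, rfl⟩
        · rintro ⟨i', h, rfl, rfl⟩
          exact ⟨h, rfl⟩
      rw [h5, Finset.card_image_of_injective _ (fun i i' h => congrArg Prod.fst h),
        Finset.card_compl, Finset.card_image_of_injective _ (h3 j), Finset.card_univ,
        Fintype.card_fin, Fintype.card_fin]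
    obtain ⟨t, t1, t2, t3, t4⟩ := hstep F (m - N) (by omega) hcol h4
    have ht : ∀ j s, T s j ≠ t j := by
      intro j s
      have h5 := t3 j
      rw [hF, Finset.mem_filter] at h5
      exact h5.2 s
    refine ⟨Fin.cons t T, ?_, ?_, ?_, ?_⟩
    · intro s
      refine Fin.cases ?_ (fun s => ?_) s
      · exact t1
      · exact h1 s
    · intro s
      refine Fin.cases ?_ (fun s => ?_) s
      · exact t2
      · exact h2 s
    · intro j s s'
      refine Fin.cases ?_ (fun s => ?_) s <;> refine Fin.cases ?_ (fun s' => ?_) s'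
      · intro _
        rfl
      · intro h
        exact absurd h.symm (ht j s')
      · intro h
        exact absurd h (ht j s)
      · intro h
        have h5 : T s j = T s' j := h
        rw [h3 j h5]
    · intro q
      have h5 : (Finset.univ.filter (fun e : Fin m × Fin n =>
          ∀ s, (Fin.cons t T : Fin (N + 1) → Fin n → Fin m) s e.2 ≠ e.1)) =
          F.filter (fun e => t e.2 ≠ e.1) := by
        ext e
        simp only [hF, Finset.mem_filter, Finset.mem_univ, true_and]
        constructor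
        · intro h
          exact ⟨fun s => h s.succ, h 0⟩
        · rintro ⟨h, h'⟩ s
          refine Fin.cases ?_ (fun s => ?_) s
          · exact h'
          · exact h s
      rw [h5]
      have h6 : ((F.filter (fun e => t e.2 ≠ e.1)).filter (fun e => A e.1 e.2 = q)) ⊆
          F.filter (fun e => A e.1 e.2 = q) := by
        intro e he
        rw [Finset.mem_filter, Finset.mem_filter] at he
        exact Finset.mem_filter.mpr ⟨he.1.1, he.2⟩
      rcases Nat.lt_or_ge ((F.filter (fun e => A e.1 e.2 = q)).card) (m - N) with h7 | h7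
      · have h8 := Finset.card_le_card h6
        omega
      · obtain ⟨j, hj⟩ := t4 q (le_antisymm (h4 q) h7)
        have h8 : ((F.filter (fun e => t e.2 ≠ e.1)).filter (fun e => A e.1 e.2 = q)) ⊆
            (F.filter (fun e => A e.1 e.2 = q)).erase (t j, j) := by
          intro e he
          rw [Finset.mem_erase]
          refine ⟨?_, h6 he⟩
          rintro rfl
          rw [Finset.mem_filter, Finset.mem_filter] at he
          exact he.1.2 rfl
        have h9 := Finset.card_le_card h8
        rw [Finset.card_erase_of_mem (Finset.mem_filter.mpr ⟨t3 j, hj⟩)] at h9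
        have h10 := h4 q
        omega

theorem final {m n : ℕ} (hn : 1 ≤ n) {S : Type*} [DecidableEq S] (A : Fin m → Fin n → S)
    (hA : ∀ i, Function.Injective (A i)) :
    ∃ T : Fin (m - min (n * (n - 1)) (131072 * n * (Nat.log 2 n + 1) ^ 2)) → Fin n → Fin m,
      (∀ s, Function.Injective (T s)) ∧
      (∀ s, Function.Injective (fun j => A (T s j) j)) ∧
      ∀ j, Function.Injective (fun s => T s j) := by
  refine greedy A hA _ ?_
  intro F D hD hcol hsym
  rcases Nat.lt_or_ge (n * (n - 1)) D with h | h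
  · exact step_large A hA F D h hcol hsym
  · rcases min_lt_iff.1 hD with h' | h'
    · exact absurd h' (not_lt.2 h)
    · refine step_small hn A hA F D h'.le (h.trans ?_) hcol hsym
      rw [sq]
      exact Nat.mul_le_mul_left _ (Nat.sub_le _ _)

end Pool.Agent.AsympTrans
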