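import Pool.Agent.AsympTrans.Run
import Pool.Agent.AsympTrans.Decomp
import Pool.Agent.AsympTrans.Cut
import Pool.Agent.AsympTrans.Family

/-! The rainbow matching that covers all columns and all tight symbols. -/

set_option autoImplicit false

namespace Pool.Agent.AsympTrans

open Finset

variable {ε V₁ V₂ Γ : Type*} [DecidableEq ε] [DecidableEq V₁] [DecidableEq V₂] [DecidableEq Γ]

theorem IsDecomp.swap {x : ε → V₁} {y : ε → V₂} {E : Finset ε} {phi : ℝ} {k : ℕ}
    {KK : Finset (Finset ε)} (h : IsDecomp x y E phi k KK) : IsDecomp y x E phi k KK := by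
  refine ⟨h.sub, ?_, h.disj, h.cover, h.right, h.left⟩
  intro K hK X₁ X₂
  have h1 := h.exp K hK X₂ X₁
  have h2 : vol y x K X₁ X₂ = vol x y K X₂ X₁ := by unfold vol; omega
  have h3 : bd y x K X₁ X₂ = bd x y K X₂ X₁ := by
    unfold bd
    congr 1
    ext e
    simp only [Finset.mem_filter]
    tauto
  rw [h2, h3]
  exact h1

theorem exists_rainbow (x : ε → V₁) (y : ε → V₂) (c : ε → Γ) (E : Finset ε)
    (hP : Proper x y c E) (n : ℕ) (hn : 1 ≤ n) (J : Finset V₁) (hJ : J.card = n)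
    (hEJ : ∀ e ∈ E, x e ∈ J) (D k : ℕ) (hk : 1 ≤ k) (hE : E.card ≤ 2 ^ k)
    (hdegx : ∀ v ∈ J, (E.filter (fun e => x e = v)).card = D)
    (hdegy : ∀ w, (E.filter (fun e => y e = w)).card ≤ D)
    (hD : 30720 * k * n * ((harmonic n : ℚ) : ℝ) ≤ D) (hD' : 8 * (k + 1) * (k + 3) * n ≤ D) :
    ∃ M, Rainbow x y c E M ∧ J ⊆ M.image x ∧
      ∀ w, (E.filter (fun e => y e = w)).card = D → w ∈ M.image y := by
  classical
  have hkR : (1 : ℝ) ≤ k := by exact_mod_cast hk
  have hnR : (1 : ℝ) ≤ n := by exact_mod_cast hn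
  have hDn : 8 * n ≤ D := by
    refine le_trans ?_ hD'
    have h1 : 1 ≤ (k + 1) * (k + 3) := Nat.mul_pos (by omega) (by omega)
    calc 8 * n = 8 * (1 * n) := by ring
      _ ≤ 8 * ((k + 1) * (k + 3) * n) := Nat.mul_le_mul_left _ (Nat.mul_le_mul_right _ h1)
      _ = 8 * (k + 1) * (k + 3) * n := by ring
  have hD1 : 1 ≤ D := by omega
  have hDR : (0 : ℝ) < D := by exact_mod_cast hD1
  have hDnR : 8 * (n : ℝ) ≤ D := by exact_mod_cast hDn
  obtain ⟨KK, hKK⟩ := exists_decomp x y k hk E hE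
  set phi : ℝ := 1 / (8 * k) with hphi
  set eps : ℝ := 1 / (160 * k) with heps
  set th : ℝ := (k : ℝ) + 3 with hth
  have hphi0 : 0 < phi := by positivity
  have hphi1 : phi ≤ 1 := by
    rw [hphi, div_le_one (by positivity)]
    linarith
  have heps0 : 0 < eps := by positivity
  have hth0 : 0 ≤ th := by positivity
  have h20 : 20 * eps ≤ phi := by
    rw [heps, hphi]
    apply le_of_eq
    field_simp
    norm_num
  have hth1 : 8 * ((k : ℝ) + 1) * n * th ≤ D := by
    rw [hth]
    have : ((8 * (k + 1) * (k + 3) * n : ℕ) : ℝ) ≤ D := by exact_mod_cast hD'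
    push_cast at this
    linarith
  obtain ⟨AA, hAAne, hAAcard, hthin⟩ := exists_family x y c E phi k hP KK hKK eps th heps0.le hth0
  have hAAR : (0 : ℝ) < AA.card := by exact_mod_cast hAAne.card_pos
  have hepsD : 192 * n * hr n ≤ eps * D := by
    rw [heps, div_mul_eq_mul_div, le_div_iff₀ (by positivity)]
    have : 30720 * k * n * hr n ≤ D := hD
    linarith
  have hlog : Real.log (3 * AA.card) ≤ th := by
    rw [Real.log_le_iff_le_exp (by positivity)]
    have h1 : (AA.card : ℝ) ≤ 5 * 2 ^ k := by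
      have h2 : AA.card ≤ 5 * 2 ^ k := by
        have : 1 ≤ 2 ^ k := Nat.one_le_two_pow
        omega
      exact_mod_cast h2
    have h2 : (2 : ℝ) ^ k ≤ Real.exp k := by
      have h3 : (2 : ℝ) ≤ Real.exp 1 := by
        have := Real.add_one_le_exp (1 : ℝ)
        linarith
      calc (2 : ℝ) ^ k ≤ (Real.exp 1) ^ k := pow_le_pow_left₀ (by norm_num) h3 k
        _ = Real.exp k := by rw [← Real.exp_nat_mul, mul_one]
    have h3 : (15 : ℝ) ≤ Real.exp 3 := by
      have h4 : (2.7 : ℝ) ≤ Real.exp 1 := by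
        have := Real.exp_one_gt_d9
        linarith
      calc (15 : ℝ) ≤ 2.7 ^ 3 := by norm_num
        _ ≤ (Real.exp 1) ^ 3 := pow_le_pow_left₀ (by norm_num) h4 3
        _ = Real.exp 3 := by rw [← Real.exp_nat_mul]; norm_num
    rw [hth, Real.exp_add]
    calc 3 * (AA.card : ℝ) ≤ 3 * (5 * 2 ^ k) := by linarith
      _ = 2 ^ k * 15 := by ring
      _ ≤ Real.exp k * Real.exp 3 := mul_le_mul h2 h3 (by norm_num) (Real.exp_pos _).le
  have hEcard : E.card = n * D := by
    rw [Finset.card_eq_sum_card_fiberwise (f := x) (t := J) (fun e he => hEJ e he),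
      Finset.sum_congr rfl hdegx, Finset.sum_const, hJ, smul_eq_mul]
  -- first run
  have hcut1 : ∀ P : Finset Γ, (∀ A ∈ AA, ((A ∩ P).card : ℝ) ≤ eps * A.card + th) →
      CutCond x y c E J D P := fun P hPA =>
    cutCond_of_thin x y c E phi hphi0 hphi1 k KK hKK J n hJ.le D hDR.le
      (fun v hv => by rw [hdegx v hv]) (fun w => by exact_mod_cast hdegy w) eps th heps0 hth0 h20
      hth1 P ((hthin P hPA).1 J)
  have hpot0 : pot AA (∅ : Finset Γ) 0 = AA.card := by
    unfold pot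
    simp
  obtain ⟨M₁, P₁, s₁, hM₁, hMP₁, hs₁, hJM₁, -, hv₁⟩ := run hP n hn hJ.le D hDnR AA hAAne eps th
    hepsD hlog hcut1 ∅ ∅ 0
    ⟨Finset.empty_subset _, by simp, by simp, by simp⟩ (by simp) le_rfl
    (by
      rw [hpot0, div_mul_cancel₀ _ hAAR.ne']
      have := hr_nonneg n
      linarith)
  -- second run
  set T := (E.image y).filter (fun w => (E.filter (fun e => y e = w)).card = D) with hT
  have hTn : T.card ≤ n := by
    have h1 : T.card * D ≤ E.card := by
      calc T.card * D = ∑ w ∈ T, (E.filter (fun e => y e = w)).card := by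
            rw [Finset.sum_congr rfl (fun w hw => (Finset.mem_filter.1 hw).2), Finset.sum_const,
              smul_eq_mul]
        _ ≤ ∑ w ∈ E.image y, (E.filter (fun e => y e = w)).card :=
            Finset.sum_le_sum_of_subset (Finset.filter_subset _ _)
        _ = E.card := (Finset.card_eq_sum_card_image y E).symm
    rw [hEcard] at h1
    exact Nat.le_of_mul_le_mul_right h1 hD1
  have hcut2 : ∀ P : Finset Γ, (∀ A ∈ AA, ((A ∩ P).card : ℝ) ≤ eps * A.card + th) →
      CutCond y x c E T D P := fun P hPA =>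
    cutCond_of_thin y x c E phi hphi0 hphi1 k KK hKK.swap T n hTn D hDR.le
      (fun v hv => by exact_mod_cast (Finset.mem_filter.1 hv).2)
      (fun w => by
        by_cases hw : w ∈ J
        · rw [hdegx w hw]
        · have : E.filter (fun e => x e = w) = ∅ := by
            refine Finset.filter_eq_empty_iff.2 fun e he hew => hw ?_
            rw [← hew]
            exact hEJ e he
          rw [this]
          simp)
      eps th heps0 hth0 h20 hth1 P ((hthin P hPA).2 T)
  obtain ⟨M₂, P₂, s₂, hM₂, -, -, hTM₂, hy₂, -⟩ := run (x := y) (y := x) ⟨hP.2, hP.1⟩ n hn hTn D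
    hDnR AA hAAne eps th hepsD hlog hcut2 M₁ P₁ s₁ ⟨hM₁.1, hM₁.2.2.1, hM₁.2.1, hM₁.2.2.2⟩ hMP₁ hs₁
    (by
      rw [hpot0, div_mul_cancel₀ _ hAAR.ne'] at hv₁
      linarith)
  refine ⟨M₂, ⟨hM₂.1, hM₂.2.2.1, hM₂.2.1, hM₂.2.2.2⟩, hJM₁.trans hy₂, ?_⟩
  intro w hw
  refine hTM₂ (Finset.mem_filter.2 ⟨?_, hw⟩)
  have h1 : (E.filter (fun e => y e = w)).Nonempty := by
    rw [← Finset.card_pos, hw]
    exact hD1
  obtain ⟨e, he⟩ := h1
  exact Finset.mem_image.2 ⟨e, (Finset.mem_filter.1 he).1, (Finset.mem_filter.1 he).2⟩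

end Pool.Agent.AsympTrans
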