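import Pool.Agent.AsympTrans.Defs

/-! Package AT3: rainbow reachability and the cut inequality. -/

set_option autoImplicit false

namespace Pool.Agent.AsympTrans

open Finset

variable {ε V₁ V₂ Γ : Type*} [DecidableEq ε] [DecidableEq V₁] [DecidableEq V₂] [DecidableEq Γ]
  {x : ε → V₁} {y : ε → V₂} {c : ε → Γ} {E M : Finset ε} {T : Finset V₁}

theorem Path.mono {L L' : Finset Γ} {A : Finset V₁} {v : V₁} (hL : L ⊆ L')
    (h : Path x y c E M T L A v) : Path x y c E M T L' A v := by
  induction h generalizing L' with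
  | src L v hT hM => exact Path.src L' v hT hM
  | step L A e f he hc hf hy hT hA h ih =>
    exact Path.step L' A e f he (hL hc) hf hy hT hA (ih (erase_subset_erase _ hL))

theorem Path.mem {L : Finset Γ} {A : Finset V₁} {v : V₁} (h : Path x y c E M T L A v) :
    v ∈ A ∧ A ⊆ T := by
  induction h with
  | src L v hT hM => exact ⟨mem_singleton_self v, singleton_subset_iff.2 hT⟩
  | step L A e f he hc hf hy hT hA h ih =>
    exact ⟨mem_insert_self _ _, insert_subset hT ih.2⟩

theorem Path.shorten {L : Finset Γ} {A : Finset V₁} {v w : V₁} (h : Path x y c E M T L A v)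
    (hw : w ∈ A) : ∃ A' ⊆ A, Path x y c E M T L A' w := by
  induction h with
  | src L v hT hM =>
    rw [mem_singleton] at hw
    subst hw
    exact ⟨{w}, subset_rfl, Path.src L w hT hM⟩
  | step L A e f he hc hf hy hT hA h ih =>
    rcases mem_insert.1 hw with hw' | hw'
    · subst hw'
      exact ⟨insert (x f) A, subset_rfl, Path.step L A e f he hc hf hy hT hA h⟩
    · obtain ⟨A', hA', h'⟩ := ih hw'
      exact ⟨A', hA'.trans (subset_insert _ _), h'.mono (erase_subset _ _)⟩

theorem Succeeds.mono {L L' : Finset Γ} (hL : L ⊆ L') (h : Succeeds x y c E M T L) :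
    Succeeds x y c E M T L' := by
  obtain ⟨e, he, hc, ⟨A, hA⟩, hend⟩ := h
  exact ⟨e, he, hL hc, ⟨A, hA.mono (erase_subset_erase _ hL)⟩, hend⟩

theorem mem_reach {L : Finset Γ} {v : V₁} :
    v ∈ reach x y c E M T L ↔ ∃ A, Path x y c E M T L A v := by
  classical
  unfold reach
  rw [mem_filter]
  constructor
  · exact fun h => h.2
  · rintro ⟨A, hA⟩
    exact ⟨hA.mem.2 hA.mem.1, A, hA⟩

theorem reach_subset (L : Finset Γ) : reach x y c E M T L ⊆ T := by
  classical
  unfold reach
  exact filter_subset _ _

theorem reach_mono {L L' : Finset Γ} (hL : L ⊆ L') :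
    reach x y c E M T L ⊆ reach x y c E M T L' := by
  intro v hv
  rw [mem_reach] at hv ⊢
  obtain ⟨A, hA⟩ := hv
  exact ⟨A, hA.mono hL⟩

theorem uncovered_subset_reach (L : Finset Γ) : T \ M.image x ⊆ reach x y c E M T L := by
  intro v hv
  rw [mem_sdiff] at hv
  exact mem_reach.2 ⟨{v}, Path.src L v hv.1 hv.2⟩

theorem gfun_of_succeeds {L : Finset Γ} (h : Succeeds x y c E M T L) :
    gfun x y c E M T L = 2 * (T.card : ℝ) := by
  classical
  unfold gfun
  exact if_pos h

theorem gfun_of_not_succeeds {L : Finset Γ} (h : ¬ Succeeds x y c E M T L) :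
    gfun x y c E M T L = ((reach x y c E M T L).card : ℝ) - ((T \ M.image x).card : ℝ) := by
  classical
  unfold gfun
  exact if_neg h

theorem gfun_bounds (L : Finset Γ) :
    0 ≤ gfun x y c E M T L ∧ gfun x y c E M T L ≤ 2 * (T.card : ℝ) := by
  by_cases h : Succeeds x y c E M T L
  · rw [gfun_of_succeeds h]
    exact ⟨by positivity, le_rfl⟩
  · rw [gfun_of_not_succeeds h]
    have h1 : ((T \ M.image x).card : ℝ) ≤ ((reach x y c E M T L).card : ℝ) :=
      Nat.cast_le.2 (card_le_card (uncovered_subset_reach L))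
    have h2 : ((reach x y c E M T L).card : ℝ) ≤ (T.card : ℝ) :=
      Nat.cast_le.2 (card_le_card (reach_subset L))
    have h3 : (0 : ℝ) ≤ ((T \ M.image x).card : ℝ) := by positivity
    have h4 : (0 : ℝ) ≤ (T.card : ℝ) := by positivity
    constructor <;> linarith

theorem gfun_mono {L L' : Finset Γ} (hL : L ⊆ L') :
    gfun x y c E M T L ≤ gfun x y c E M T L' := by
  by_cases h : Succeeds x y c E M T L
  · rw [gfun_of_succeeds h, gfun_of_succeeds (h.mono hL)]
  · by_cases h' : Succeeds x y c E M T L'
    · rw [gfun_of_succeeds h']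
      exact (gfun_bounds L).2
    · rw [gfun_of_not_succeeds h, gfun_of_not_succeeds h']
      have h1 : ((reach x y c E M T L).card : ℝ) ≤ ((reach x y c E M T L').card : ℝ) :=
        Nat.cast_le.2 (card_le_card (reach_mono hL))
      linarith

/-- the end of a leaving edge -/
theorem exists_partner {L : Finset Γ} (hS : ¬ Succeeds x y c E M T L) {e : ε} (he : e ∈ E)
    (hc : c e ∈ L) {A : Finset V₁} (hA : Path x y c E M T (L.erase (c e)) A (x e)) :
    ∃ f ∈ M, y f = y e ∧ x f ∈ T := by
  by_contra hcon
  push Not at hcon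
  apply hS
  refine ⟨e, he, hc, ⟨A, hA⟩, ?_⟩
  by_cases h : ∀ f ∈ M, y f ≠ y e
  · exact Or.inl h
  · push Not at h
    obtain ⟨f, hf, hfe⟩ := h
    exact Or.inr ⟨f, hf, hfe, hcon f hf hfe⟩

/-- a path which avoids the colour of `e` can be continued by `e`, or the partner of the right
vertex of `e` is reached already -/
theorem partner_reached {L L' : Finset Γ} (hLL : L' ⊆ L) (hS : ¬ Succeeds x y c E M T L) {e : ε}
    (he : e ∈ E) (hc : c e ∈ L) (hL' : L' ⊆ L.erase (c e)) (hx : x e ∈ reach x y c E M T L') :
    ∃ f ∈ M, y f = y e ∧ x f ∈ reach x y c E M T L := by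
  obtain ⟨A, hA⟩ := mem_reach.1 hx
  have hA' := hA.mono hL'
  obtain ⟨f, hf, hfe, hfT⟩ := exists_partner hS he hc hA'
  refine ⟨f, hf, hfe, ?_⟩
  by_cases hfA : x f ∈ A
  · obtain ⟨A₁, _, h₁⟩ := hA.shorten hfA
    exact mem_reach.2 ⟨A₁, h₁.mono hLL⟩
  · exact mem_reach.2 ⟨insert (x f) A, Path.step L A e f he hc hf hfe hfT hfA hA'⟩

theorem gfun_ineq_color (hP : Proper x y c E) (hM : Rainbow x y c E M) (L : Finset Γ)
    (hS : ¬ Succeeds x y c E M T L) (d : Γ) :
    ((E.filter (fun e => c e = d ∧ x e ∈ reach x y c E M T L ∧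
        y e ∉ (M.filter (fun f => x f ∈ reach x y c E M T L)).image y)).card : ℝ) ≤
      gfun x y c E M T (insert d L) - gfun x y c E M T (L.erase d) := by
  classical
  set X := reach x y c E M T L with hX
  set F := E.filter (fun e => c e = d ∧ x e ∈ X ∧
        y e ∉ (M.filter (fun f => x f ∈ X)).image y) with hF
  -- the map `x` is injective on `F`
  have hxinj : Set.InjOn x (F : Set ε) := by
    intro e he f hf hef
    have he' := (mem_filter.1 (mem_coe.1 he))
    have hf' := (mem_filter.1 (mem_coe.1 hf))
    exact hP.1 e he'.1 f hf'.1 hef (he'.2.1.trans hf'.2.1.symm)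
  have hleave : ∀ e ∈ F, ∀ f ∈ M, y f = y e → x f ∉ X := by
    intro e he f hf hfe hfX
    have he' := (mem_filter.1 he).2.2.2
    exact he' (mem_image.2 ⟨f, mem_filter.2 ⟨hf, hfX⟩, hfe⟩)
  have hFX : (F.card : ℝ) ≤ (X.card : ℝ) := by
    have : (F.image x).card ≤ X.card := by
      apply card_le_card
      intro v hv
      obtain ⟨e, he, rfl⟩ := mem_image.1 hv
      exact (mem_filter.1 he).2.2.1
    rw [card_image_of_injOn hxinj] at this
    exact_mod_cast this
  have hXT : (X.card : ℝ) ≤ (T.card : ℝ) :=
    Nat.cast_le.2 (card_le_card (reach_subset L))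
  by_cases hd : d ∈ L
  · -- the colour is in `L`
    rw [insert_eq_of_mem hd, gfun_of_not_succeeds hS,
      gfun_of_not_succeeds (fun h => hS (h.mono (erase_subset d L)))]
    have hsub : F.image x ⊆ X \ reach x y c E M T (L.erase d) := by
      intro v hv
      obtain ⟨e, he, rfl⟩ := mem_image.1 hv
      obtain ⟨heE, hed, heX, -⟩ := mem_filter.1 he
      refine mem_sdiff.2 ⟨heX, fun hcon => ?_⟩
      obtain ⟨f, hf, hfe, hfX⟩ := partner_reached (erase_subset d L) hS heE (by rw [hed]; exact hd)
        (by rw [hed]) hcon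
      exact hleave e he f hf hfe hfX
    have h1 := card_le_card hsub
    rw [card_image_of_injOn hxinj, card_sdiff_of_subset (reach_mono (erase_subset d L)), ← hX]
      at h1
    have h2 : (reach x y c E M T (L.erase d)).card ≤ X.card :=
      card_le_card (reach_mono (erase_subset d L))
    have h3 : F.card + (reach x y c E M T (L.erase d)).card ≤ X.card := by omega
    have h4 : (F.card : ℝ) + ((reach x y c E M T (L.erase d)).card : ℝ) ≤ (X.card : ℝ) := by
      exact_mod_cast h3
    linarith
  · -- the colour is not in `L`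
    rw [erase_eq_of_notMem hd, gfun_of_not_succeeds hS]
    by_cases hS' : Succeeds x y c E M T (insert d L)
    · rw [gfun_of_succeeds hS']
      have h3 : (0 : ℝ) ≤ ((T \ M.image x).card : ℝ) := by positivity
      linarith
    · rw [gfun_of_not_succeeds hS']
      have hpart : ∀ e ∈ F, ∃ f ∈ M, y f = y e ∧ x f ∈ reach x y c E M T (insert d L) := by
        intro e he
        obtain ⟨heE, hed, heX, -⟩ := mem_filter.1 he
        exact partner_reached (subset_insert d L) hS' heE (by rw [hed]; exact mem_insert_self _ _)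
          (by rw [hed, erase_insert hd]) heX
      choose! g hg1 hg2 hg3 using hpart
      have hginj : Set.InjOn (fun e => x (g e)) (F : Set ε) := by
        intro e he f hf hef
        have he0 := mem_coe.1 he
        have hf0 := mem_coe.1 hf
        have h1 : g e = g f := hM.2.1 (mem_coe.2 (hg1 e he0)) (mem_coe.2 (hg1 f hf0)) hef
        have h2 : y e = y f := by rw [← hg2 e he0, ← hg2 f hf0, h1]
        have he' := (mem_filter.1 he0)
        have hf' := (mem_filter.1 hf0)
        exact hP.2 e he'.1 f hf'.1 h2 (he'.2.1.trans hf'.2.1.symm)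
      have hsub : F.image (fun e => x (g e)) ⊆ reach x y c E M T (insert d L) \ X := by
        intro v hv
        obtain ⟨e, he, rfl⟩ := mem_image.1 hv
        exact mem_sdiff.2 ⟨hg3 e he, hleave e he (g e) (hg1 e he) (hg2 e he)⟩
      have h1 := card_le_card hsub
      rw [card_image_of_injOn hginj, card_sdiff_of_subset (reach_mono (subset_insert d L)), ← hX]
        at h1
      have h2 : X.card ≤ (reach x y c E M T (insert d L)).card :=
        card_le_card (reach_mono (subset_insert d L))
      have h3 : F.card + X.card ≤ (reach x y c E M T (insert d L)).card := by omega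
      have h4 : (F.card : ℝ) + (X.card : ℝ) ≤ ((reach x y c E M T (insert d L)).card : ℝ) := by
        exact_mod_cast h3
      linarith

/-- The cut inequality. `X` is the set of vertices reached with the colours `L`, `Q` the set of
partners of its covered vertices; if no good end is reached with `L`, the number of edges with
colours in `U` leaving `X` is at most the sum of the derivatives of `gfun`. (A leaving edge of
colour `d ∉ L` gives a new vertex of `reach (insert d L)` or a good end; in the second case
`gfun (insert d L) - gfun L = 2 |T| - |X| + |T \ M| ≥ |X|` bounds all leaving edges of colour `d`.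
A leaving edge of colour `d ∈ L` starts outside `reach (L.erase d)`.) -/
theorem gfun_ineq (hP : Proper x y c E) (hM : Rainbow x y c E M) (U L : Finset Γ) (hL : L ⊆ U)
    (hS : ¬ Succeeds x y c E M T L) :
    ((E.filter (fun e => c e ∈ U ∧ x e ∈ reach x y c E M T L ∧
        y e ∉ (M.filter (fun f => x f ∈ reach x y c E M T L)).image y)).card : ℝ) ≤
      ∑ d ∈ U, (gfun x y c E M T (insert d L) - gfun x y c E M T (L.erase d)) := by
  classical
  have h1 : (E.filter (fun e => c e ∈ U ∧ x e ∈ reach x y c E M T L ∧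
        y e ∉ (M.filter (fun f => x f ∈ reach x y c E M T L)).image y)).card =
      ∑ d ∈ U, (E.filter (fun e => c e = d ∧ x e ∈ reach x y c E M T L ∧
        y e ∉ (M.filter (fun f => x f ∈ reach x y c E M T L)).image y)).card := by
    rw [card_eq_sum_card_fiberwise (f := c) (t := U)
      (fun e he => (mem_filter.1 (mem_coe.1 he)).2.1)]
    apply sum_congr rfl
    intro d hd
    congr 1
    ext e
    simp only [mem_filter]
    constructor
    · rintro ⟨⟨h1, _, h3⟩, h4⟩
      exact ⟨h1, h4, h3⟩
    · rintro ⟨h1, h2, h3⟩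
      exact ⟨⟨h1, h2 ▸ hd, h3⟩, h2⟩
  rw [h1, Nat.cast_sum]
  exact sum_le_sum fun d _ => gfun_ineq_color hP hM L hS d

/-- the numbers in the cut inequality -/
theorem reach_card (hM : Rainbow x y c E M) (L : Finset Γ) :
    T \ M.image x ⊆ reach x y c E M T L ∧ reach x y c E M T L ⊆ T ∧
      ((M.filter (fun f => x f ∈ reach x y c E M T L)).image y).card + (T \ M.image x).card =
        (reach x y c E M T L).card := by
  classical
  refine ⟨uncovered_subset_reach L, reach_subset L, ?_⟩
  set X := reach x y c E M T L with hX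
  have hy : Set.InjOn y ((M.filter (fun f => x f ∈ X) : Finset ε) : Set ε) :=
    hM.2.2.1.mono (by intro f hf; exact mem_coe.2 (mem_filter.1 (mem_coe.1 hf)).1)
  have hx : Set.InjOn x ((M.filter (fun f => x f ∈ X) : Finset ε) : Set ε) :=
    hM.2.1.mono (by intro f hf; exact mem_coe.2 (mem_filter.1 (mem_coe.1 hf)).1)
  rw [card_image_of_injOn hy, ← card_image_of_injOn hx, ← card_union_of_disjoint]
  · congr 1
    ext v
    simp only [mem_union, mem_image, mem_filter, mem_sdiff]
    constructor
    · rintro (⟨f, ⟨_, h2⟩, rfl⟩ | h)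
      · exact h2
      · exact uncovered_subset_reach L (mem_sdiff.2 ⟨h.1, by
          rw [mem_image]; exact h.2⟩)
    · intro hv
      by_cases hvM : ∃ f ∈ M, x f = v
      · obtain ⟨f, hf, rfl⟩ := hvM
        exact Or.inl ⟨f, ⟨hf, hv⟩, rfl⟩
      · exact Or.inr ⟨reach_subset L hv, hvM⟩
  · rw [disjoint_left]
    intro v hv hv'
    obtain ⟨f, hf, rfl⟩ := mem_image.1 hv
    exact (mem_sdiff.1 hv').2 (mem_image_of_mem x (mem_filter.1 hf).1)

end Pool.Agent.AsympTrans
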