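import Pool.Agent.LN61.Russo
import Pool.Agent.AsympTrans.PathCut
import Pool.Agent.AsympTrans.Augment

/-! The potential and the run. -/

set_option autoImplicit false

namespace Pool.Agent.AsympTrans

open Finset

variable {ε V₁ V₂ Γ : Type*} [DecidableEq ε] [DecidableEq V₁] [DecidableEq V₂] [DecidableEq Γ]
  {x : ε → V₁} {y : ε → V₂} {c : ε → Γ} {E : Finset ε} {T : Finset V₁}

/-- harmonic numbers as reals -/
noncomputable def hr (n : ℕ) : ℝ := ((harmonic n : ℚ) : ℝ)

theorem hr_zero : hr 0 = 0 := by simp [hr]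

theorem hr_succ (n : ℕ) : hr (n + 1) = hr n + 1 / ((n : ℝ) + 1) := by
  unfold hr
  rw [harmonic_succ]
  push_cast
  rw [one_div]

theorem hr_mono {m n : ℕ} (h : m ≤ n) : hr m ≤ hr n := by
  induction n, h using Nat.le_induction with
  | base => exact le_rfl
  | succ n _ ih =>
    rw [hr_succ]
    have : 0 ≤ 1 / ((n : ℝ) + 1) := by positivity
    linarith

theorem hr_nonneg (n : ℕ) : 0 ≤ hr n := by
  rw [← hr_zero]; exact hr_mono (Nat.zero_le n)

theorem hr_pos {n : ℕ} (hn : 1 ≤ n) : 0 < hr n := by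
  have h : hr 1 ≤ hr n := hr_mono hn
  have h1 : hr 1 = 1 := by rw [hr_succ, hr_zero]; norm_num
  linarith

/-- `theta = H_t + (D / (32 n)) s + (H_n / |AA|) pot`, where `t` is the number of uncovered
vertices of `T` -/
noncomputable def theta (x : ε → V₁) (T : Finset V₁) (n : ℕ) (D : ℝ) (AA : Finset (Finset Γ))
    (M : Finset ε) (P : Finset Γ) (s : ℝ) : ℝ :=
  hr (T \ M.image x).card + D / (32 * n) * s + hr n / AA.card * pot AA P s

theorem pot_nonneg (AA : Finset (Finset Γ)) (P : Finset Γ) (s : ℝ) : 0 ≤ pot AA P s :=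
  Finset.sum_nonneg fun _ _ => (Real.exp_pos _).le

theorem pot_union_le (AA : Finset (Finset Γ)) (P L : Finset Γ) (s p : ℝ) :
    pot AA (P ∪ L) (s + p) ≤ ∑ A ∈ AA,
      Real.exp ((((A ∩ P).card : ℝ) - 2 * s * (A.card : ℝ)) + (A ∩ L).card - 2 * p * A.card) := by
  refine Finset.sum_le_sum fun A _ => Real.exp_le_exp.2 ?_
  have h : (A ∩ (P ∪ L)).card ≤ (A ∩ P).card + (A ∩ L).card := by
    rw [Finset.inter_union_distrib_left]
    exact Finset.card_union_le _ _
  have h' : ((A ∩ (P ∪ L)).card : ℝ) ≤ (A ∩ P).card + (A ∩ L).card := by exact_mod_cast h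
  nlinarith

theorem step (hP : Proper x y c E) (n : ℕ) (hn : 1 ≤ n) (hT : T.card ≤ n) (D : ℝ)
    (hD : 8 * (n : ℝ) ≤ D) (AA : Finset (Finset Γ)) (M : Finset ε) (P : Finset Γ) (s : ℝ)
    (hM : Rainbow x y c E M) (hMP : M.image c ⊆ P) (ht : (T \ M.image x).Nonempty)
    (hcut : CutCond x y c E T D P) :
    ∃ M' P' s', Rainbow x y c E M' ∧ M'.image c ⊆ P' ∧ P ⊆ P' ∧ s ≤ s' ∧
      M.image y ⊆ M'.image y ∧
      theta x T n D AA M' P' s' ≤ theta x T n D AA M P s - 1 / (4 * n) := by
  classical
  set t := (T \ M.image x).card with htdef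
  have ht1 : 1 ≤ t := ht.card_pos
  have htn : t ≤ n := (Finset.card_le_card Finset.sdiff_subset).trans hT
  have hnR : (1 : ℝ) ≤ n := by exact_mod_cast hn
  have htR : (1 : ℝ) ≤ t := by exact_mod_cast ht1
  have htnR : (t : ℝ) ≤ n := by exact_mod_cast htn
  have hD0 : 0 < D := by linarith
  have hDt : 0 < D * t := by positivity
  set U := E.image c \ P with hU
  set p : ℝ := 8 * n / (D * t) with hp
  have hp0 : 0 ≤ p := by positivity
  have hp1 : p ≤ 1 := by
    rw [hp, div_le_one hDt]
    nlinarith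
  have hTcard : (T.card : ℝ) ≤ n := by exact_mod_cast hT
  have hTpos : (0 : ℝ) < T.card := by
    have : 0 < T.card := lt_of_lt_of_le ht1 (Finset.card_le_card Finset.sdiff_subset)
    exact_mod_cast this
  have hlamp : D / 2 * t * p = 4 * n := by
    rw [hp]; field_simp; ring
  obtain ⟨L, hLU, hL⟩ := Pool.Agent.LN61.exists_step (U := U) (g := gfun x y c E M T)
    (fail := fun L => ¬ Succeeds x y c E M T L) (G := 2 * (T.card : ℝ)) (lam := D / 2 * t)
    (p := p) (a := 1 / (t : ℝ)) (kap := hr n / AA.card) hp0 hp1 (by positivity)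
    (fun L _ => (gfun_bounds L).1) (fun L _ => (gfun_bounds L).2) (by positivity)
    (fun L _ L' hL' h h' => h (h'.mono hL'))
    (by
      intro L hL
      by_cases hS : Succeeds x y c E M T L
      swap
      · rw [if_pos hS]
        have hr := reach_card (x := x) (y := y) (c := c) (E := E) (T := T) hM L
        have h1 := hcut (reach x y c E M T L) hr.2.1
          ((M.filter (fun f => x f ∈ reach x y c E M T L)).image y) (by omega)
        have h2 := gfun_ineq (T := T) hP hM U L hL hS
        have h3 : E.filter (fun e => c e ∉ P ∧ x e ∈ reach x y c E M T L ∧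
            y e ∉ (M.filter (fun f => x f ∈ reach x y c E M T L)).image y) ⊆
            E.filter (fun e => c e ∈ U ∧ x e ∈ reach x y c E M T L ∧
              y e ∉ (M.filter (fun f => x f ∈ reach x y c E M T L)).image y) := by
          intro e he
          rw [Finset.mem_filter] at he ⊢
          exact ⟨he.1, Finset.mem_sdiff.2 ⟨Finset.mem_image_of_mem c he.1, he.2.1⟩, he.2.2⟩
        have h4 : ((E.filter (fun e => c e ∉ P ∧ x e ∈ reach x y c E M T L ∧
            y e ∉ (M.filter (fun f => x f ∈ reach x y c E M T L)).image y)).card : ℝ) ≤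
            ((E.filter (fun e => c e ∈ U ∧ x e ∈ reach x y c E M T L ∧
              y e ∉ (M.filter (fun f => x f ∈ reach x y c E M T L)).image y)).card : ℝ) := by
          exact_mod_cast Finset.card_le_card h3
        have h5 : ((reach x y c E M T L).card : ℝ) -
            (((M.filter (fun f => x f ∈ reach x y c E M T L)).image y).card : ℝ) = t := by
          rw [← hr.2.2]
          push_cast
          ring
        rw [h5] at h1
        exact h1.trans (h4.trans h2)
      · rw [if_neg (not_not.2 hS)]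
        refine Finset.sum_nonneg fun d _ => sub_nonneg.2 (gfun_mono ?_)
        exact (Finset.erase_subset _ _).trans (Finset.subset_insert _ _))
    (by rw [hlamp]; linarith) (by positivity)
    (div_nonneg (hr_nonneg n) (Nat.cast_nonneg _))
    AA id (fun A => ((A ∩ P).card : ℝ) - 2 * s * (A.card : ℝ))
  have hLM : Disjoint L (M.image c) := by
    rw [Finset.disjoint_left]
    intro a ha ha'
    exact (Finset.mem_sdiff.1 (hLU ha)).2 (hMP ha')
  have hpot := pot_union_le AA P L s p
  have hkap : 0 ≤ hr n / (AA.card : ℝ) := div_nonneg (hr_nonneg n) (Nat.cast_nonneg _)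
  have hpot' := mul_le_mul_of_nonneg_left hpot hkap
  have hsp : D / (32 * n) * (s + p) = D / (32 * n) * s + 1 / (4 * t) := by
    rw [hp]; field_simp; ring
  have hfin : 1 / (4 * (n : ℝ)) ≤ 1 / (4 * (t : ℝ)) := by
    apply one_div_le_one_div_of_le (by positivity)
    linarith
  have h4t : 1 / (4 * (t : ℝ)) = 1 / (t : ℝ) / 4 := by field_simp
  have hsum : ∑ A ∈ AA, Real.exp ((((A ∩ P).card : ℝ) - 2 * s * (A.card : ℝ))) = pot AA P s := rfl
  simp only [id] at hL
  rw [hsum] at hL
  by_cases hS : Succeeds x y c E M T L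
  · obtain ⟨M', hM', hc', ht', hy'⟩ := aug_of_succeeds hM hLM hS
    refine ⟨M', P ∪ L, s + p, hM', ?_, Finset.subset_union_left, by linarith, hy', ?_⟩
    · exact hc'.trans (Finset.union_subset_union_left hMP)
    · rw [if_neg (not_not.2 hS)] at hL
      have h1 : hr (T \ M'.image x).card ≤ hr t - 1 / (t : ℝ) := by
        obtain ⟨t', ht'1⟩ : ∃ t', t = t' + 1 := ⟨t - 1, by omega⟩
        have h2 : hr (T \ M'.image x).card ≤ hr t' := hr_mono (by omega)
        have h3 := hr_succ t'
        rw [← ht'1] at h3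
        have h4 : ((t' : ℝ) + 1) = t := by rw [ht'1]; push_cast; ring
        rw [h4] at h3
        linarith
      unfold theta
      rw [hsp, ← htdef]
      linarith
  · refine ⟨M, P ∪ L, s + p, hM, hMP.trans Finset.subset_union_left, Finset.subset_union_left,
      by linarith, Finset.Subset.refl _, ?_⟩
    rw [if_pos hS] at hL
    unfold theta
    rw [hsp, ← htdef]
    linarith

theorem run (hP : Proper x y c E) (n : ℕ) (hn : 1 ≤ n) (hT : T.card ≤ n) (D : ℝ)
    (hD : 8 * (n : ℝ) ≤ D) (AA : Finset (Finset Γ)) (hAA : AA.Nonempty) (eps th : ℝ)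
    (heps : 192 * n * hr n ≤ eps * D)
    (hth : Real.log (3 * AA.card) ≤ th)
    (hcut : ∀ P : Finset Γ, (∀ A ∈ AA, ((A ∩ P).card : ℝ) ≤ eps * A.card + th) →
      CutCond x y c E T D P)
    (M₀ : Finset ε) (P₀ : Finset Γ) (s₀ : ℝ) (hM₀ : Rainbow x y c E M₀) (hMP₀ : M₀.image c ⊆ P₀)
    (hs₀ : 0 ≤ s₀)
    (hpot : D / (32 * n) * s₀ + hr n / AA.card * pot AA P₀ s₀ ≤ 2 * hr n) :
    ∃ M P s, Rainbow x y c E M ∧ M.image c ⊆ P ∧ s₀ ≤ s ∧ T ⊆ M.image x ∧
      M₀.image y ⊆ M.image y ∧
      D / (32 * n) * s + hr n / AA.card * pot AA P s ≤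
        hr n + (D / (32 * n) * s₀ + hr n / AA.card * pot AA P₀ s₀) := by
  have hnR : (1 : ℝ) ≤ n := by exact_mod_cast hn
  have hD0 : 0 < D := by linarith
  have hh := hr_pos hn
  have hAAR : (0 : ℝ) < AA.card := by exact_mod_cast hAA.card_pos
  set B := hr n + (D / (32 * n) * s₀ + hr n / AA.card * pot AA P₀ s₀) with hB
  have hB3 : B ≤ 3 * hr n := by rw [hB]; linarith
  have hnonneg : ∀ (M : Finset ε) (P : Finset Γ) (s : ℝ), 0 ≤ s → 0 ≤ theta x T n D AA M P s := by
    intro M P s hs
    unfold theta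
    have h1 := hr_nonneg (T \ M.image x).card
    have h2 : 0 ≤ D / (32 * n) * s := by positivity
    have h3 : 0 ≤ hr n / AA.card * pot AA P s := mul_nonneg (by positivity) (pot_nonneg _ _ _)
    linarith
  have hC : ∀ (M : Finset ε) (P : Finset Γ) (s : ℝ), 0 ≤ s → theta x T n D AA M P s ≤ B →
      CutCond x y c E T D P := by
    intro M P s hs hth'
    refine hcut P fun A hA => ?_
    unfold theta at hth'
    have h1 := hr_nonneg (T \ M.image x).card
    have h2 : 0 ≤ D / (32 * n) * s := by positivity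
    have h3 : 0 ≤ hr n / AA.card * pot AA P s := mul_nonneg (by positivity) (pot_nonneg _ _ _)
    have h4 : hr n / AA.card * pot AA P s ≤ 3 * hr n := by linarith
    have h5 : pot AA P s ≤ 3 * AA.card := by
      rw [div_mul_eq_mul_div, div_le_iff₀ hAAR] at h4
      have : hr n * pot AA P s ≤ hr n * (3 * AA.card) := by linarith
      exact le_of_mul_le_mul_left this hh
    have h6 : Real.exp (((A ∩ P).card : ℝ) - 2 * s * (A.card : ℝ)) ≤ 3 * AA.card :=
      (Finset.single_le_sum (f := fun A : Finset Γ =>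
        Real.exp (((A ∩ P).card : ℝ) - 2 * s * (A.card : ℝ)))
        (fun _ _ => (Real.exp_pos _).le) hA).trans h5
    have h7 : ((A ∩ P).card : ℝ) - 2 * s * (A.card : ℝ) ≤ th := by
      refine le_trans ?_ hth
      rw [Real.le_log_iff_exp_le (by positivity)]
      exact h6
    have h8 : 2 * s ≤ eps := by
      have h9 : D / (32 * n) * s ≤ 3 * hr n := by linarith
      rw [div_mul_eq_mul_div, div_le_iff₀ (by positivity)] at h9
      have h10 : D * (2 * s) ≤ D * eps := by nlinarith
      exact le_of_mul_le_mul_left h10 hD0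
    have h9 : 2 * s * (A.card : ℝ) ≤ eps * A.card :=
      mul_le_mul_of_nonneg_right h8 (Nat.cast_nonneg _)
    linarith
  have key : ∀ (N : ℕ) (M : Finset ε) (P : Finset Γ) (s : ℝ), Rainbow x y c E M →
      M.image c ⊆ P → s₀ ≤ s → M₀.image y ⊆ M.image y → theta x T n D AA M P s ≤ B →
      theta x T n D AA M P s * (4 * n) ≤ N →
      ∃ M P s, Rainbow x y c E M ∧ M.image c ⊆ P ∧ s₀ ≤ s ∧ T ⊆ M.image x ∧
        M₀.image y ⊆ M.image y ∧
        D / (32 * n) * s + hr n / AA.card * pot AA P s ≤ B := by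
    intro N
    induction N with
    | zero =>
      intro M P s hM hMP hs hy hB' hN
      by_cases hTM : T ⊆ M.image x
      · refine ⟨M, P, s, hM, hMP, hs, hTM, hy, ?_⟩
        have := hr_nonneg (T \ M.image x).card
        unfold theta at hB'
        linarith
      · obtain ⟨M', P', s', h1, h2, h3, h4, h5, h6⟩ := step hP n hn hT D hD AA M P s hM hMP
          (by rwa [Finset.nonempty_iff_ne_empty, Ne, Finset.sdiff_eq_empty_iff_subset])
          (hC M P s (hs₀.trans hs) hB')
        exfalso
        have h7 := hnonneg M' P' s' ((hs₀.trans hs).trans h4)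
        have h8 : 0 < 1 / (4 * (n : ℝ)) := by positivity
        push_cast at hN
        nlinarith
    | succ N ih =>
      intro M P s hM hMP hs hy hB' hN
      by_cases hTM : T ⊆ M.image x
      · refine ⟨M, P, s, hM, hMP, hs, hTM, hy, ?_⟩
        have := hr_nonneg (T \ M.image x).card
        unfold theta at hB'
        linarith
      · obtain ⟨M', P', s', h1, h2, h3, h4, h5, h6⟩ := step hP n hn hT D hD AA M P s hM hMP
          (by rwa [Finset.nonempty_iff_ne_empty, Ne, Finset.sdiff_eq_empty_iff_subset])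
          (hC M P s (hs₀.trans hs) hB')
        have h8 : 0 < 1 / (4 * (n : ℝ)) := by positivity
        refine ih M' P' s' h1 h2 (hs.trans h4) (hy.trans h5) (by linarith) ?_
        have h9 : theta x T n D AA M' P' s' * (4 * n) ≤
            (theta x T n D AA M P s - 1 / (4 * n)) * (4 * n) :=
          mul_le_mul_of_nonneg_right h6 (by positivity)
        have h10 : (theta x T n D AA M P s - 1 / (4 * n)) * (4 * n) =
            theta x T n D AA M P s * (4 * n) - 1 := by
          field_simp
        push_cast at hN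
        linarith
  have hB0 : theta x T n D AA M₀ P₀ s₀ ≤ B := by
    unfold theta
    have h1 : hr (T \ M₀.image x).card ≤ hr n :=
      hr_mono ((Finset.card_le_card Finset.sdiff_subset).trans hT)
    rw [hB]
    linarith
  obtain ⟨N, hN⟩ := exists_nat_ge (theta x T n D AA M₀ P₀ s₀ * (4 * n))
  exact key N M₀ P₀ s₀ hM₀ hMP₀ le_rfl (Finset.Subset.refl _) hB0 hN

end Pool.Agent.AsympTrans
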